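import Mathlib
set_option autoImplicit false

/-!
# Gadgets that are not of XOR type
-/

namespace Pool.Agent.Helper25.Comp

open Finset

/-- the real value of a Boolean -/
def br (b : Bool) : ℝ := if b = true then 1 else 0

/-- Richness: after a linear change on both sides the gadget is the `2 × 2` identity and the
constant gadget vanishes. -/
def Rich {X Y : Type*} [Fintype X] [Fintype Y] (h : X → Y → Bool) : Prop :=
  ∃ (P : Fin 2 → X → ℝ) (Q : Fin 2 → Y → ℝ), (∀ k l, ∑ x, ∑ y, P k x * Q l y = 0) ∧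
    ∀ k l, ∑ x, ∑ y, P k x * br (h x y) * Q l y = if k = l then 1 else 0

theorem weights (t a b c : Bool) (h0 : t = false → a ≠ c) (h1 : t = true → b ≠ c) :
    ∃ w : Fin 2 → Fin 3 → ℝ, (∀ k, ∑ j, w k j = 0) ∧
      ∀ k l : Fin 2, ∑ j, w k j * br ((![![false, true, t], ![a, b, c]] : Fin 2 → Fin 3 → Bool) l j) =
        if k = l then 1 else 0 := by
  cases t
  · refine ⟨![![-1 - (br a - br b) * (br c - br a), 1, (br a - br b) * (br c - br a)],
      ![-(br c - br a), 0, br c - br a]], ?_, ?_⟩
    · intro k; fin_cases k <;> simp [Fin.sum_univ_three] <;> ring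
    · have := h0 rfl
      intro k l; fin_cases k <;> fin_cases l <;> cases a <;> cases b <;> cases c <;>
        simp [Fin.sum_univ_three, br] at this ⊢
  · refine ⟨![![-1, 1 - (br a - br b) * (br c - br b), (br a - br b) * (br c - br b)],
      ![0, -(br c - br b), br c - br b]], ?_, ?_⟩
    · intro k; fin_cases k <;> simp [Fin.sum_univ_three] <;> ring
    · have := h1 rfl
      intro k l; fin_cases k <;> fin_cases l <;> cases a <;> cases b <;> cases c <;>
        simp [Fin.sum_univ_three, br] at this ⊢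

theorem rich_of_three_rows {X Y : Type*} [Fintype X] [Fintype Y] (h : X → Y → Bool) (x0 x1 x2 : X)
    (y1 : Y) (e0 : h x0 y1 = false) (e1 : h x1 y1 = true) (h02 : h x0 ≠ h x2)
    (h12 : h x1 ≠ h x2) : Rich h := by
  classical
  obtain ⟨y, hy0, hy1⟩ : ∃ y, (h x2 y1 = false → h x0 y ≠ h x2 y) ∧
      (h x2 y1 = true → h x1 y ≠ h x2 y) := by
    cases ht : h x2 y1
    · obtain ⟨y, hy⟩ := Function.ne_iff.1 h02
      exact ⟨y, fun _ => hy, fun h => absurd h (by simp)⟩
    · obtain ⟨y, hy⟩ := Function.ne_iff.1 h12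
      exact ⟨y, fun h => absurd h (by simp), fun _ => hy⟩
  obtain ⟨w, hw0, hw1⟩ := weights (h x2 y1) (h x0 y) (h x1 y) (h x2 y) hy0 hy1
  let xs : Fin 3 → X := ![x0, x1, x2]
  let ys : Fin 2 → Y := ![y1, y]
  have hsum : ∀ (k : Fin 2) (l : Fin 2) (u : X → Y → ℝ),
      ∑ a, ∑ b, (∑ j, w k j * (if a = xs j then 1 else 0)) * u a b * (if b = ys l then 1 else 0) =
        ∑ j, w k j * u (xs j) (ys l) := by
    intro k l u
    have e2 : ∀ a, ∑ b, (∑ j, w k j * (if a = xs j then 1 else 0)) * u a b *
        (if b = ys l then 1 else 0) = (∑ j, w k j * (if a = xs j then 1 else 0)) * u a (ys l) := by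
      intro a
      simp
    rw [sum_congr rfl (fun a _ => e2 a)]
    simp only [sum_mul]
    rw [sum_comm]
    refine sum_congr rfl fun j _ => ?_
    simp
  refine ⟨fun k a => ∑ j, w k j * (if a = xs j then 1 else 0),
    fun l b => if b = ys l then 1 else 0, ?_, ?_⟩
  · intro k l
    have := hsum k l (fun _ _ => 1)
    simp only [mul_one] at this
    rw [this]
    exact hw0 k
  · intro k l
    rw [hsum k l (fun a b => br (h a b)), ← hw1 k l]
    refine sum_congr rfl fun j _ => ?_
    congr 2
    fin_cases l <;> fin_cases j <;> simp [xs, ys, e0, e1]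

theorem rich_swap {X Y : Type*} [Fintype X] [Fintype Y] (h : X → Y → Bool)
    (hr : Rich (fun y x => h x y)) : Rich h := by
  obtain ⟨P, Q, h1, h2⟩ := hr
  refine ⟨Q, P, ?_, ?_⟩
  · intro k l
    rw [sum_comm, ← h1 l k]
    exact sum_congr rfl fun y _ => sum_congr rfl fun x _ => by ring
  · intro k l
    rw [sum_comm]
    have := h2 l k
    rw [show (∑ y, ∑ x, Q k x * br (h x y) * P l y) = ∑ y, ∑ x, P l y * br (h x y) * Q k x from
      sum_congr rfl fun y _ => sum_congr rfl fun x _ => by ring, this]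
    simp only [eq_comm]

theorem odd_square {X Y : Type*} (g : X → Y → Bool)
    (hg : ¬ ∃ (a : X → Bool) (b : Y → Bool), ∀ x y, g x y = xor (a x) (b y)) :
    ∃ x x' y y', xor (xor (g x y) (g x y')) (xor (g x' y) (g x' y')) = true := by
  by_contra hcon
  push Not at hcon
  apply hg
  by_cases hX : Nonempty X
  · by_cases hY : Nonempty Y
    · obtain ⟨x0⟩ := hX
      obtain ⟨y0⟩ := hY
      refine ⟨fun x => xor (g x y0) (g x0 y0), fun y => g x0 y, fun x y => ?_⟩
      have := hcon x x0 y y0
      change g x y = xor (xor (g x y0) (g x0 y0)) (g x0 y)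
      revert this
      cases g x y <;> cases g x y0 <;> cases g x0 y <;> cases g x0 y0 <;> simp
    · exact ⟨fun _ => false, fun _ => false, fun x y => (hY ⟨y⟩).elim⟩
  · exact ⟨fun _ => false, fun _ => false, fun x y => (hX ⟨x⟩).elim⟩

theorem and_square {X Y : Type*} (g : X → Y → Bool)
    (hg : ¬ ∃ (a : X → Bool) (b : Y → Bool), ∀ x y, g x y = xor (a x) (b y)) :
    ∃ (s : Bool) (x1 x0 : X) (y1 y0 : Y), xor s (g x1 y1) = true ∧ xor s (g x1 y0) = false ∧
      xor s (g x0 y1) = false ∧ xor s (g x0 y0) = false := by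
  obtain ⟨x, x', y, y', h⟩ := odd_square g hg
  -- the four labellings and two signs
  have key : ∃ s : Bool,
      (xor s (g x y) = true ∧ xor s (g x y') = false ∧ xor s (g x' y) = false ∧
        xor s (g x' y') = false) ∨
      (xor s (g x y') = true ∧ xor s (g x y) = false ∧ xor s (g x' y') = false ∧
        xor s (g x' y) = false) ∨
      (xor s (g x' y) = true ∧ xor s (g x' y') = false ∧ xor s (g x y) = false ∧
        xor s (g x y') = false) ∨
      (xor s (g x' y') = true ∧ xor s (g x' y) = false ∧ xor s (g x y') = false ∧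
        xor s (g x y) = false) := by
    revert h
    cases g x y <;> cases g x y' <;> cases g x' y <;> cases g x' y' <;> simp
  obtain ⟨s, h | h | h | h⟩ := key
  · exact ⟨s, x, x', y, y', h⟩
  · exact ⟨s, x, x', y', y, h⟩
  · exact ⟨s, x', x, y, y', h⟩
  · exact ⟨s, x', x, y', y, h⟩

/-- The structure of the gadgets that are not of XOR type. -/
theorem gadget {X Y : Type*} [Fintype X] [Fintype Y] (g : X → Y → Bool)
    (hg : ¬ ∃ (a : X → Bool) (b : Y → Bool), ∀ x y, g x y = xor (a x) (b y)) :
    ∃ (s : Bool) (x1 x0 : X) (y1 y0 : Y), xor s (g x1 y1) = true ∧ xor s (g x1 y0) = false ∧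
      xor s (g x0 y1) = false ∧ xor s (g x0 y0) = false ∧
      ((∃ (α : X → Bool) (β : Y → Bool), ∀ x y, xor s (g x y) = (α x && β y)) ∨
        Rich (fun x y => xor s (g x y))) := by
  classical
  obtain ⟨s, x1, x0, y1, y0, h11, h10, h01, h00⟩ := and_square g hg
  refine ⟨s, x1, x0, y1, y0, h11, h10, h01, h00, ?_⟩
  set h : X → Y → Bool := fun x y => xor s (g x y) with hh
  have h11' : h x1 y1 = true := h11
  have h10' : h x1 y0 = false := h10
  have h01' : h x0 y1 = false := h01
  have h00' : h x0 y0 = false := h00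
  by_cases hrow : ∃ x2, h x0 ≠ h x2 ∧ h x1 ≠ h x2
  · obtain ⟨x2, h2, h3⟩ := hrow
    exact Or.inr (rich_of_three_rows h x0 x1 x2 y1 h01' h11' h2 h3)
  · by_cases hcol : ∃ y2, (fun x => h x y0) ≠ (fun x => h x y2) ∧
        (fun x => h x y1) ≠ (fun x => h x y2)
    · obtain ⟨y2, h2, h3⟩ := hcol
      exact Or.inr (rich_swap h (rich_of_three_rows (fun y x => h x y) y0 y1 y2 x1 h10' h11' h2 h3))
    · left
      push Not at hrow hcol
      refine ⟨fun x => h x y1, fun y => h x1 y, fun x y => ?_⟩
      change h x y = (h x y1 && h x1 y)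
      by_cases hx : h x0 = h x
      · have e1 : h x y1 = false := by rw [← hx]; exact h01'
        rw [e1, Bool.false_and, ← hx]
        by_cases hy : (fun x => h x y0) = (fun x => h x y)
        · rw [← congrFun hy x0]; exact h00'
        · rw [← congrFun (hcol y hy) x0]; exact h01'
      · have e2 := hrow x hx
        rw [← e2, h11', Bool.true_and]

end Pool.Agent.Helper25.Comp
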