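import Mathlib
set_option autoImplicit false

namespace Pool.Agent.Helper25.Comp

/-- The composed function `F ((x, a), (y, b)) = f (g_i (x_i, y_i))_i (a ⊓ b)`. -/
def compose {I L : Type*} {X Y : I → Type*} [SemilatticeInf L] (g : ∀ i, X i → Y i → Bool)
    (f : (I → Bool) → L → Bool) (x : (∀ i, X i) × L) (y : (∀ i, Y i) × L) : Bool :=
  f (fun i => g i (x.1 i) (y.1 i)) (x.2 ⊓ y.2)

/-- The graph of a Boolean matrix `M`: the vertices are the zero entries `(x, y)`, and `(x, y)`,
`(x', y')` are adjacent iff `M x y' = 1` or `M x' y = 1`. -/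
def matrixGraph {R C : Type*} (M : R → C → Bool) : SimpleGraph {p : R × C // M p.1 p.2 = false} where
  Adj p q := M p.1.1 q.1.2 = true ∨ M q.1.1 p.1.2 = true
  symm := ⟨fun _ _ h => h.symm⟩
  loopless := ⟨fun p h => by
    have := p.2
    rcases h with h | h <;> simp [this] at h⟩

end Pool.Agent.Helper25.Comp
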