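import Mathlib
import Pool.Agent.Helper25.Meet.Defs
set_option autoImplicit false

/-!
# Composed functions: basic definitions

Rows and columns are abstract; `σ x`, `τ y` are the sets of variables on which the row `x` and the
column `y` do not vanish.
-/

namespace Pool.Agent.Helper25.Comp

open Finset

/-- the number of members of `R` that contain `B` -/
def cnt {ι ρ : Type*} [DecidableEq ι] (σ : ρ → Finset ι) (R : Finset ρ) (B : Finset ι) : ℕ :=
  (R.filter (fun x => B ⊆ σ x)).card

open Classical in
/-- the active monomials of a column with support `y` -/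
noncomputable def act {ι ρ : Type*} [Fintype ι] [DecidableEq ι] (c : Finset ι → ℝ)
    (σ : ρ → Finset ι) (R : Finset ρ) (y : Finset ι) : Finset (Finset ι) :=
  univ.filter (fun V => V ≠ ∅ ∧ c V ≠ 0 ∧ V ⊆ y ∧ ∃ x ∈ R, V ⊆ σ x)

open Classical in
/-- the monomials of `G` that disappear or merge when the variables in `A` are fixed -/
noncomputable def bad {ι ρ : Type*} [Fintype ι] [DecidableEq ι] (G : Finset (Finset ι))
    (σ : ρ → Finset ι) (R : Finset ρ) (N : ℕ) (A : Finset ι) : Finset (Finset ι) :=
  G.filter (fun S => cnt σ R (A ∪ S) * N < cnt σ R A ∨ S ⊆ A ∨ ∃ S' ∈ G, S' ≠ S ∧ S' \ A = S \ A)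

end Pool.Agent.Helper25.Comp
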