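import Mathlib
import Pool.Agent.Helper25.Comp.Defs
import Pool.Agent.Helper25.Meet.Move
set_option autoImplicit false

/-!
# The move lemma (counting argument)
-/

namespace Pool.Agent.Helper25.Comp

open Finset

open Pool.Agent.Helper25.Meet (IsMob)
open Pool.Agent.Helper25.Meet.MoveAux

/-- THE MOVE (counting argument). -/
theorem exists_move {I ρ : Type*} [Fintype I] [DecidableEq I] (c f : Finset I → ℝ) (hm : IsMob c f)
    (h01 : ∀ z, f z = 0 ∨ f z = 1) (r : ℕ) (hr : (univ.filter (fun S => c S ≠ 0)).card ≤ r)
    (N J : ℕ) (hN : 1 ≤ N)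
    -- the key lemma (proved elsewhere, here a hypothesis)
    (hkey : ∀ (c' f' : Finset I → ℝ), IsMob c' f' → (∀ z, f' z = 0 ∨ f' z = 1) →
      (univ.filter (fun S => c' S ≠ 0)).card ≤ r →
      ∀ S : Fin J → Finset I, (∀ i, c' (S i) ≠ 0) → (∀ i, ¬ S i ⊆ (univ.erase i).biUnion S) →
      ¬ ∀ i T, c' T ≠ 0 →
        T \ (univ.erase i).biUnion S = S i \ (univ.erase i).biUnion S → T = S i)
    (σ : ρ → Finset I) (R : Finset ρ) (hR : R.Nonempty) (y : Finset I) :
    ∃ g : Fin J → Finset I, (∀ i, g i = ∅ ∨ g i ∈ act c σ R y) ∧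
      R.card ≤ cnt σ R (univ.biUnion g) * N ^ J ∧
      (act c σ R y).card ≤ 2 * J * (bad (act c σ R y) σ R N (univ.biUnion g)).card := by
  classical
  have hNJ : 1 ≤ N ^ J := Nat.one_le_pow _ _ hN
  rcases Finset.eq_empty_or_nonempty (act c σ R y) with hG | hG
  · refine ⟨fun _ => ∅, fun _ => Or.inl rfl, ?_, by rw [hG]; simp⟩
    have h1 : (univ.biUnion fun _ : Fin J => (∅ : Finset I)) = ∅ := by
      ext x; simp
    rw [h1]
    have h2 : cnt σ R ∅ = R.card := by
      unfold cnt
      rw [Finset.filter_true_of_mem]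
      intro x _
      exact Finset.empty_subset _
    rw [h2]
    exact Nat.le_mul_of_pos_right _ hNJ
  rcases Nat.eq_zero_or_pos J with rfl | hJ
  · exfalso
    refine hkey c f hm h01 hr (fun i => i.elim0) (fun i => i.elim0) (fun i => i.elim0) ?_
    intro i
    exact i.elim0
  by_contra hcon
  set G := act c σ R y with hGdef
  have hcon' : ∀ g : Fin J → Finset I, (∀ i, g i = ∅ ∨ g i ∈ G) →
      R.card ≤ cnt σ R (univ.biUnion g) * N ^ J →
      2 * J * (bad G σ R N (univ.biUnion g)).card < G.card := by
    intro g h1 h2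
    by_contra h3
    exact hcon ⟨g, h1, h2, not_lt.mp h3⟩
  have hGpos : 0 < G.card := hG.card_pos
  haveI : Nonempty (Fin J × Bool) := ⟨(⟨0, hJ⟩, true)⟩
  -- the index sets
  let ix : Fin J × Bool → Finset (Fin J) := fun p =>
    if p.2 then univ.filter (fun i => i < p.1) else univ.erase p.1
  have hix : ∀ p, p.1 ∉ ix p := by
    rintro ⟨l, b⟩
    cases b <;> simp [ix]
  have hupd : ∀ (p : Fin J × Bool) (S : Fin J → Finset I) (v : Finset I),
      (ix p).biUnion (Function.update S p.1 v) = (ix p).biUnion S := by
    intro p S v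
    refine Finset.biUnion_congr rfl fun i hi => ?_
    have : i ≠ p.1 := by
      rintro rfl
      exact hix p hi
    rw [Function.update_of_ne this]
  obtain ⟨S, hSG, hS⟩ := exists_avoid G hG (fun p : Fin J × Bool => p.1)
    (fun p S => R.card ≤ cnt σ R ((ix p).biUnion S) * N ^ J ∧
      S p.1 ∈ bad G σ R N ((ix p).biUnion S)) (by
    intro p S hS T hT
    have hcard : Fintype.card (Fin J × Bool) = 2 * J := by simp [mul_comm]
    rw [hcard]
    by_cases hc : R.card ≤ cnt σ R ((ix p).biUnion S) * N ^ J
    · have hg := hcon' (fun i => if i ∈ ix p then S i else ∅) (fun i => by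
        by_cases hi : i ∈ ix p
        · right; rw [if_pos hi]; exact hS i
        · left; rw [if_neg hi])
      have hU : (univ.biUnion fun i => if i ∈ ix p then S i else ∅) = (ix p).biUnion S := by
        ext x
        simp only [Finset.mem_biUnion, Finset.mem_univ, true_and]
        constructor
        · rintro ⟨i, hi⟩
          by_cases h : i ∈ ix p
          · rw [if_pos h] at hi; exact ⟨i, h, hi⟩
          · rw [if_neg h] at hi; simp at hi
        · rintro ⟨i, h, hi⟩
          exact ⟨i, by rw [if_pos h]; exact hi⟩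
      rw [hU] at hg
      refine lt_of_le_of_lt (Nat.mul_le_mul_left _ (Finset.card_le_card ?_)) (hg hc)
      intro v hv
      have h1 := (hT v hv).2.2
      rw [hupd, Function.update_self] at h1
      exact h1
    · have : T = ∅ := by
        rw [Finset.eq_empty_iff_forall_notMem]
        intro v hv
        have h1 := (hT v hv).2.1
        rw [hupd] at h1
        exact hc h1
      rw [this]
      simpa using hGpos)
  -- the sizes
  have hsz : ∀ m : ℕ, m ≤ J →
      R.card ≤ cnt σ R ((univ.filter fun i : Fin J => i.val < m).biUnion S) * N ^ m := by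
    intro m
    induction m with
    | zero =>
      intro _
      have h1 : ((univ.filter fun i : Fin J => i.val < 0).biUnion S) = ∅ := by simp
      rw [h1]
      unfold cnt
      rw [Finset.filter_true_of_mem (fun x _ => Finset.empty_subset _)]
      simp
    | succ m ih =>
      intro hm'
      have h1 := ih (by omega)
      have h2 := hS (⟨m, by omega⟩, true)
      have h3 : ix (⟨m, by omega⟩, true) = univ.filter fun i : Fin J => i.val < m := by
        ext i
        simp only [ix, if_true, Finset.mem_filter, Finset.mem_univ, true_and]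
        exact Fin.lt_def
      simp only [h3] at h2
      have h4 : R.card ≤ cnt σ R ((univ.filter fun i : Fin J => i.val < m).biUnion S) * N ^ J :=
        h1.trans (Nat.mul_le_mul_left _ (Nat.pow_le_pow_right hN (by omega)))
      have h5 := fun h => h2 ⟨h4, h⟩
      have h6 : ¬ cnt σ R ((univ.filter fun i : Fin J => i.val < m).biUnion S ∪
          S ⟨m, by omega⟩) * N < cnt σ R ((univ.filter fun i : Fin J => i.val < m).biUnion S) := by
        intro h
        apply h5
        unfold bad
        rw [Finset.mem_filter]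
        exact ⟨hSG _, Or.inl h⟩
      have h7 : (univ.filter fun i : Fin J => i.val < m + 1).biUnion S =
          (univ.filter fun i : Fin J => i.val < m).biUnion S ∪ S ⟨m, by omega⟩ := by
        ext x
        simp only [Finset.mem_union, Finset.mem_biUnion, Finset.mem_filter, Finset.mem_univ,
          true_and]
        constructor
        · rintro ⟨i, hi, hx⟩
          rcases Nat.lt_succ_iff_lt_or_eq.mp hi with h | h
          · exact Or.inl ⟨i, h, hx⟩
          · right
            have : i = ⟨m, by omega⟩ := Fin.ext h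
            rwa [this] at hx
        · rintro (⟨i, hi, hx⟩ | hx)
          · exact ⟨i, by omega, hx⟩
          · exact ⟨⟨m, by omega⟩, by simp, hx⟩
      rw [h7]
      calc R.card ≤ cnt σ R ((univ.filter fun i : Fin J => i.val < m).biUnion S) * N ^ m := h1
        _ ≤ (cnt σ R ((univ.filter fun i : Fin J => i.val < m).biUnion S ∪
              S ⟨m, by omega⟩) * N) * N ^ m := Nat.mul_le_mul_right _ (not_lt.mp h6)
        _ = _ := by rw [pow_succ]; ring
  have hall : R.card ≤ cnt σ R (univ.biUnion S) * N ^ J := by
    have h1 := hsz J le_rfl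
    have h2 : (univ.filter fun i : Fin J => i.val < J) = univ := by
      ext i; simp
    rwa [h2] at h1
  have hmono : ∀ A B : Finset I, A ⊆ B → cnt σ R B ≤ cnt σ R A := by
    intro A B hAB
    unfold cnt
    refine Finset.card_le_card fun x hx => ?_
    rw [Finset.mem_filter] at hx ⊢
    exact ⟨hx.1, hAB.trans hx.2⟩
  have hnb : ∀ l : Fin J, S l ∉ bad G σ R N ((univ.erase l).biUnion S) := by
    intro l hl
    have h1 := hS (l, false)
    have h2 : ix (l, false) = univ.erase l := by simp [ix]
    simp only [h2] at h1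
    refine h1 ⟨?_, hl⟩
    refine hall.trans (Nat.mul_le_mul_right _ (hmono _ _ ?_))
    exact Finset.biUnion_subset_biUnion_of_subset_left _ (Finset.erase_subset _ _)
  have hcpos : 0 < cnt σ R (univ.biUnion S) := by
    by_contra h
    have h0 : cnt σ R (univ.biUnion S) = 0 := by omega
    rw [h0, zero_mul] at hall
    have := hR.card_pos
    omega
  obtain ⟨x, hx⟩ := Finset.card_pos.mp hcpos
  rw [Finset.mem_filter] at hx
  obtain ⟨hxR, hxA⟩ := hx
  have hact : ∀ V, V ∈ G ↔ V ≠ ∅ ∧ c V ≠ 0 ∧ V ⊆ y ∧ ∃ x ∈ R, V ⊆ σ x := by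
    intro V
    rw [hGdef]
    unfold act
    simp
  have hSw : ∀ i, S i ⊆ σ x ∩ y := by
    intro i
    refine Finset.subset_inter ?_ ((hact _).mp (hSG i)).2.2.1
    exact (Finset.subset_biUnion_of_mem S (Finset.mem_univ i)).trans hxA
  have hns : ∀ i, ¬ S i ⊆ (univ.erase i).biUnion S := by
    intro i h
    apply hnb i
    unfold bad
    rw [Finset.mem_filter]
    exact ⟨hSG i, Or.inr (Or.inl h)⟩
  refine hkey (fun T => if T ⊆ σ x ∩ y then c T else 0) (fun z => f (z ∩ (σ x ∩ y))) ?_ ?_ ?_ S
    ?_ hns ?_
  · intro z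
    dsimp only
    rw [hm (z ∩ (σ x ∩ y)), ← Finset.sum_filter]
    refine Finset.sum_congr ?_ fun _ _ => rfl
    ext T
    simp only [Finset.mem_powerset, Finset.mem_filter]
    constructor
    · intro h
      exact ⟨h.trans Finset.inter_subset_left, h.trans Finset.inter_subset_right⟩
    · rintro ⟨h1, h2⟩
      exact Finset.subset_inter h1 h2
  · intro z
    exact h01 _
  · refine le_trans (Finset.card_le_card ?_) hr
    intro T hT
    rw [Finset.mem_filter] at hT ⊢
    refine ⟨Finset.mem_univ _, ?_⟩
    by_contra h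
    apply hT.2
    simp [h]
  · intro i
    rw [if_pos (hSw i)]
    exact ((hact _).mp (hSG i)).2.1
  · intro i T hT hTS
    have hTw : T ⊆ σ x ∩ y := by
      by_contra h
      rw [if_neg h] at hT
      exact hT rfl
    rw [if_pos hTw] at hT
    by_contra hne
    apply hnb i
    unfold bad
    rw [Finset.mem_filter]
    refine ⟨hSG i, Or.inr (Or.inr ⟨T, ?_, hne, hTS⟩)⟩
    rw [hact]
    refine ⟨?_, hT, hTw.trans Finset.inter_subset_right, x, hxR,
      hTw.trans Finset.inter_subset_left⟩
    rintro rfl
    apply hns i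
    rw [← Finset.sdiff_eq_empty_iff_subset, ← hTS]
    simp

end Pool.Agent.Helper25.Comp
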