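import Mathlib
import Pool.Agent.Helper25.Meet.Rect
import Pool.Agent.Helper25.Comp.Move
import Pool.Agent.Helper25.Comp.Upd
set_option autoImplicit false

/-!
# Large constant rectangles of composed functions
-/

namespace Pool.Agent.Helper25.Comp

open Finset

open Pool.Agent.Helper25.Meet (IsMob)

theorem exists_popular {ρ I : Type*} [DecidableEq I] {m : ℕ} (p : ρ → I → Fin m) (R : Finset ρ)
    (hR : R.Nonempty) (B : Finset I) :
    ∃ u : I → Fin m, R.card ≤ (R.filter (fun x => ∀ i ∈ B, p x i = u i)).card * m ^ B.card := by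
  classical
  induction B using Finset.induction_on with
  | empty =>
    obtain ⟨x, _⟩ := hR
    refine ⟨p x, ?_⟩
    simp
  | insert i B hi ih =>
    obtain ⟨u, hu⟩ := ih
    set R1 := R.filter (fun x => ∀ j ∈ B, p x j = u j) with hR1
    have h1 : ∃ v : Fin m, R1.card ≤ (R1.filter (fun x => p x i = v)).card * m := by
      by_contra hcon
      push Not at hcon
      obtain ⟨x0, hx0⟩ := hR
      have hm : (univ : Finset (Fin m)).Nonempty := ⟨p x0 i, mem_univ _⟩
      have h2 := card_eq_sum_card_fiberwise (f := fun x => p x i) (s := R1) (t := univ)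
        (fun _ _ => mem_univ _)
      have h3 : R1.card * m < m * R1.card := by
        calc R1.card * m = ∑ v : Fin m, (R1.filter (fun x => p x i = v)).card * m := by
              rw [← sum_mul, ← h2]
          _ < ∑ _v : Fin m, R1.card := sum_lt_sum_of_nonempty hm (fun v _ => hcon v)
          _ = m * R1.card := by rw [sum_const, smul_eq_mul, card_univ, Fintype.card_fin]
      rw [mul_comm] at h3
      exact lt_irrefl _ h3
    obtain ⟨v, hv⟩ := h1
    refine ⟨Function.update u i v, ?_⟩
    have h4 : R.filter (fun x => ∀ j ∈ insert i B, p x j = Function.update u i v j) =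
        R1.filter (fun x => p x i = v) := by
      ext x
      simp only [hR1, mem_filter, mem_insert, forall_eq_or_imp, Function.update_self]
      constructor
      · rintro ⟨hx, h5, h6⟩
        refine ⟨⟨hx, fun j hj => ?_⟩, h5⟩
        have := h6 j hj
        rwa [Function.update_of_ne (by rintro rfl; exact hi hj)] at this
      · rintro ⟨⟨hx, h6⟩, h5⟩
        refine ⟨hx, h5, fun j hj => ?_⟩
        rw [Function.update_of_ne (by rintro rfl; exact hi hj)]
        exact h6 j hj
    rw [h4, card_insert_of_notMem hi, pow_succ]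
    calc R.card ≤ R1.card * m ^ B.card := hu
      _ ≤ ((R1.filter (fun x => p x i = v)).card * m) * m ^ B.card := Nat.mul_le_mul_right _ hv
      _ = (R1.filter (fun x => p x i = v)).card * (m ^ B.card * m) := by ring

variable {I ρ κ : Type*} [Fintype I] [DecidableEq I] {m : ℕ}

/-- the input of the pair `(x, y)` -/
def inp (σ : ρ → Finset I) (τ : κ → Finset I) (K : Finset I) (p : ρ → I → Fin m)
    (q : κ → I → Fin m) (h : I → Fin m → Fin m → Bool) (x : ρ) (y : κ) : Finset I :=
  (σ x ∩ τ y).filter (fun i => i ∈ K → h i (p x i) (q y i) = true)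

theorem exists_rect_aux (r J d : ℕ) (hr1 : 1 ≤ r) (hJ : 8 * (Nat.log 2 r + 1) ^ 2 < J)
    (hm1 : 1 ≤ m) (σ : ρ → Finset I) (τ : κ → Finset I) (K : Finset I) (p : ρ → I → Fin m)
    (q : κ → I → Fin m) (h : I → Fin m → Fin m → Bool) :
    ∀ (T : ℕ) (c f : Finset I → ℝ), IsMob c f → (∀ z, f z = 0 ∨ f z = 1) →
      (univ.filter (fun S => c S ≠ 0)).card ≤ r → (∀ S, c S ≠ 0 → (S ∩ K).card ≤ d) →
      ∀ (R : Finset ρ) (C : Finset κ), R.Nonempty → C.Nonempty →
        (∀ y ∈ C, (act c σ R (τ y)).card * (4 * J - 1) ^ T < (4 * J) ^ T) →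
        ∃ R' ⊆ R, ∃ C' ⊆ C, ∃ v : ℝ, R.card ≤ R'.card * ((2 * r) ^ (J + 1) * m ^ (J * d)) ^ T ∧
          C.card ≤ C'.card * ((2 * r) ^ (J + 1) * m ^ (J * d)) ^ T ∧
          ∀ x ∈ R', ∀ y ∈ C', f (inp σ τ K p q h x y) = v := by
  classical
  intro T
  induction T with
  | zero =>
    intro c f hm h01 hr hd R C hR hC hact
    refine ⟨R, Subset.refl _, C, Subset.refl _, c ∅, by simp, by simp, ?_⟩
    intro x hx y hy
    rw [hm (inp σ τ K p q h x y), sum_eq_single ∅]
    · intro S hS hS0
      by_contra hcS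
      have h1 := hact y hy
      have h2 : act c σ R (τ y) = ∅ := by
        rw [← card_eq_zero]; simpa using h1
      have h3 : S ∈ act c σ R (τ y) := by
        rw [mem_powerset] at hS
        have hS' : S ⊆ σ x ∩ τ y := hS.trans (filter_subset _ _)
        simp only [act, mem_filter, mem_univ, true_and]
        exact ⟨hS0, hcS, hS'.trans inter_subset_right, x, hx, hS'.trans inter_subset_left⟩
      rw [h2] at h3
      simp at h3
    · intro h; exact absurd (mem_powerset.2 (empty_subset _)) h
  | succ T ih =>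
    intro c f hm h01 hr hd R C hR hC hact
    have hJ0 : 1 ≤ J := by omega
    have hmove := fun y : κ => exists_move c f hm h01 r hr (2 * r) J (by omega)
      (fun c' f' hm' h01' hr' S hS hA hB => by
        have := Pool.Agent.Helper25.Meet.key c' f' hm' h01' r hr' J S hS hA hB
        omega) σ R hR (τ y)
    choose g hg1 hg2 hg3 using hmove
    set lab : κ → Finset I := fun y => univ.biUnion (g y) with hlab
    set supp : Finset (Finset I) := univ.filter (fun S => c S ≠ 0) with hsupp
    set Labels : Finset (Finset I) :=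
      (Fintype.piFinset (fun _ : Fin J => insert ∅ supp)).image (fun h => univ.biUnion h) with hLab
    have hLcard : Labels.card ≤ (2 * r) ^ J := by
      refine card_image_le.trans ?_
      rw [Fintype.card_piFinset]
      simp only [prod_const, card_univ, Fintype.card_fin]
      apply Nat.pow_le_pow_left
      refine (card_insert_le _ _).trans ?_
      omega
    have hmaps : ∀ y ∈ C, lab y ∈ Labels := by
      intro y _
      rw [hLab, mem_image]
      refine ⟨g y, ?_, rfl⟩
      rw [Fintype.mem_piFinset]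
      intro i
      rw [mem_insert]
      rcases hg1 y i with h | h
      · exact Or.inl h
      · right
        simp only [act, mem_filter, mem_univ, true_and] at h
        simp only [hsupp, mem_filter, mem_univ, true_and]
        exact h.2.1
    have hpig : ∃ A ∈ Labels, C.card ≤ (C.filter (fun y => lab y = A)).card * (2 * r) ^ J := by
      by_contra hcon
      push Not at hcon
      have h1 := card_eq_sum_card_fiberwise (f := lab) (s := C) (t := Labels) hmaps
      have hCpos : 0 < C.card := card_pos.2 hC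
      have hLne : Labels.Nonempty := by
        obtain ⟨y, hy⟩ := hC
        exact ⟨_, hmaps y hy⟩
      have h2 : C.card * (2 * r) ^ J < Labels.card * C.card := by
        calc C.card * (2 * r) ^ J = ∑ A ∈ Labels, (C.filter (fun y => lab y = A)).card * (2 * r) ^ J := by
              rw [← sum_mul, ← h1]
          _ < ∑ A ∈ Labels, C.card := sum_lt_sum_of_nonempty hLne hcon
          _ = Labels.card * C.card := by rw [sum_const, smul_eq_mul]
      have h3 : Labels.card * C.card ≤ (2 * r) ^ J * C.card := Nat.mul_le_mul_right _ hLcard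
      rw [mul_comm C.card] at h2
      omega
    obtain ⟨A, _, hA⟩ := hpig
    set C1 := C.filter (fun y => lab y = A) with hC1
    have hC1ne : C1.Nonempty := by
      rw [← card_pos]
      by_contra h0
      have : C1.card = 0 := by omega
      rw [this, zero_mul] at hA
      exact absurd (card_pos.2 hC) (by omega)
    have hC1mem : ∀ y ∈ C1, y ∈ C ∧ univ.biUnion (g y) = A := by
      intro y hy
      rw [hC1, mem_filter] at hy
      exact hy
    -- the number of rich coordinates in `A`
    have hAK : (A ∩ K).card ≤ J * d := by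
      obtain ⟨y, hy⟩ := hC1ne
      rw [← (hC1mem y hy).2]
      have h1 : (univ.biUnion (g y)) ∩ K ⊆ univ.biUnion (fun i => g y i ∩ K) := by
        intro m hmm
        rw [mem_inter] at hmm
        obtain ⟨i, hi, hi'⟩ := mem_biUnion.1 hmm.1
        exact mem_biUnion.2 ⟨i, hi, mem_inter.2 ⟨hi', hmm.2⟩⟩
      refine (card_le_card h1).trans ((card_biUnion_le_card_mul _ _ d ?_).trans (by simp))
      intro i _
      rcases hg1 y i with h | h
      · rw [h]; simp
      · simp only [act, mem_filter, mem_univ, true_and] at h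
        exact hd _ h.2.1
    obtain ⟨v, hv⟩ := exists_popular q C1 hC1ne (A ∩ K)
    obtain ⟨C2, hC2⟩ : ∃ C2 : Finset κ, C2 = C1.filter (fun y => ∀ i ∈ A ∩ K, q y i = v i) :=
      ⟨_, rfl⟩
    have hv : C1.card ≤ C2.card * m ^ (A ∩ K).card := by
      rw [hC2]; convert hv
    have hC2mem : ∀ y ∈ C2, y ∈ C1 ∧ ∀ i ∈ A ∩ K, q y i = v i := by
      intro y hy
      rw [hC2, mem_filter] at hy
      exact hy
    have hC2sub : C2 ⊆ C1 := fun y hy => (hC2mem y hy).1
    obtain ⟨R1, hR1, hcnt, hAR, hupd⟩ := exists_update c f hm h01 r hr1 hr σ R A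
    have hAy : ∀ y ∈ C1, A ⊆ τ y := by
      intro y hy
      rw [← (hC1mem y hy).2]
      intro m hmm
      obtain ⟨i, _, hi⟩ := mem_biUnion.1 hmm
      rcases hg1 y i with h | h
      · rw [h] at hi; simp at hi
      · simp only [act, mem_filter, mem_univ, true_and] at h
        exact h.2.2.1 hi
    have hRcnt : R.card ≤ cnt σ R A * (2 * r) ^ J := by
      obtain ⟨y, hy⟩ := hC1ne
      have := hg2 y
      rw [(hC1mem y hy).2] at this
      exact this
    have hRpos : 0 < R.card := card_pos.2 hR
    have hR1ne : R1.Nonempty := by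
      rw [← card_pos]
      by_contra h0
      have h1 : R1.card = 0 := by omega
      have h2 : cnt σ R A = 0 := by omega
      rw [h2, zero_mul] at hRcnt
      omega
    obtain ⟨u, hu⟩ := exists_popular p R1 hR1ne (A ∩ K)
    obtain ⟨R2, hR2⟩ : ∃ R2 : Finset ρ, R2 = R1.filter (fun x => ∀ i ∈ A ∩ K, p x i = u i) :=
      ⟨_, rfl⟩
    have hu : R1.card ≤ R2.card * m ^ (A ∩ K).card := by
      rw [hR2]; convert hu
    have hR2mem : ∀ x ∈ R2, x ∈ R1 ∧ ∀ i ∈ A ∩ K, p x i = u i := by
      intro x hx
      rw [hR2, mem_filter] at hx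
      exact hx
    have hR2sub : R2 ⊆ R1 := fun x hx => (hR2mem x hx).1
    have hmpow : m ^ (A ∩ K).card ≤ m ^ (J * d) := Nat.pow_le_pow_right hm1 hAK
    have hR2ne : R2.Nonempty := by
      rw [← card_pos]
      by_contra h0
      have h1 : R2.card = 0 := by omega
      rw [h1, zero_mul] at hu
      have := card_pos.2 hR1ne
      omega
    have hC2ne : C2.Nonempty := by
      rw [← card_pos]
      by_contra h0
      have h1 : C2.card = 0 := by omega
      rw [h1, zero_mul] at hv
      have := card_pos.2 hC1ne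
      omega
    set e := A.filter (fun i => i ∈ K → h i (u i) (v i) = true) with he
    obtain ⟨c', f', hm', h01', hr', hsup, hff, hpot⟩ := hupd e (filter_subset _ _)
    have hd' : ∀ S, c' S ≠ 0 → (S ∩ K).card ≤ d := by
      intro S hS
      obtain ⟨S', hS', hSS⟩ := hsup S hS
      exact (card_le_card (inter_subset_inter_right hSS)).trans (hd S' hS')
    have hpot' : ∀ y ∈ C2, (act c' σ R2 (τ y)).card * (4 * J - 1) ^ T < (4 * J) ^ T := by
      intro y hy
      have hyC1 := hC2sub hy
      have h1 := hpot R2 hR2sub (τ y) J (hAy y hyC1) (by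
        have := hg3 y
        rw [(hC1mem y hyC1).2] at this
        exact this)
      have h2 := hact y (hC1mem y hyC1).1
      rw [pow_succ, pow_succ] at h2
      have h3 : (4 * J) * ((act c' σ R2 (τ y)).card * (4 * J - 1) ^ T) < (4 * J) * (4 * J) ^ T := by
        calc (4 * J) * ((act c' σ R2 (τ y)).card * (4 * J - 1) ^ T)
            = (4 * J * (act c' σ R2 (τ y)).card) * (4 * J - 1) ^ T := by ring
          _ ≤ ((4 * J - 1) * (act c σ R (τ y)).card) * (4 * J - 1) ^ T :=
              Nat.mul_le_mul_right _ h1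
          _ = (act c σ R (τ y)).card * ((4 * J - 1) ^ T * (4 * J - 1)) := by ring
          _ < (4 * J) ^ T * (4 * J) := h2
          _ = (4 * J) * (4 * J) ^ T := by ring
      exact lt_of_mul_lt_mul_left h3 (Nat.zero_le _)
    obtain ⟨R', hR'1, C', hC'1, w, h1, h2, h3⟩ :=
      ih c' f' hm' h01' hr' hd' R2 C2 hR2ne hC2ne hpot'
    have h2r : 2 ≤ 2 * r := by omega
    refine ⟨R', (hR'1.trans hR2sub).trans hR1,
      C', (hC'1.trans hC2sub).trans (filter_subset _ _), w, ?_, ?_, ?_⟩
    · calc R.card ≤ cnt σ R A * (2 * r) ^ J := hRcnt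
        _ ≤ (2 * R1.card) * (2 * r) ^ J := Nat.mul_le_mul_right _ hcnt
        _ ≤ ((2 * r) * R1.card) * (2 * r) ^ J :=
            Nat.mul_le_mul_right _ (Nat.mul_le_mul_right _ h2r)
        _ ≤ ((2 * r) * (R2.card * m ^ (J * d))) * (2 * r) ^ J :=
            Nat.mul_le_mul_right _ (Nat.mul_le_mul_left _
              (hu.trans (Nat.mul_le_mul_left _ hmpow)))
        _ = R2.card * ((2 * r) ^ (J + 1) * m ^ (J * d)) := by ring
        _ ≤ (R'.card * ((2 * r) ^ (J + 1) * m ^ (J * d)) ^ T) *
              ((2 * r) ^ (J + 1) * m ^ (J * d)) := Nat.mul_le_mul_right _ h1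
        _ = R'.card * ((2 * r) ^ (J + 1) * m ^ (J * d)) ^ (T + 1) := by
            rw [pow_succ ((2 * r) ^ (J + 1) * m ^ (J * d)) T]; ring
    · calc C.card ≤ C1.card * (2 * r) ^ J := hA
        _ ≤ (C2.card * m ^ (J * d)) * (2 * r) ^ J :=
            Nat.mul_le_mul_right _ (hv.trans (Nat.mul_le_mul_left _ hmpow))
        _ ≤ (C2.card * m ^ (J * d)) * (2 * r) ^ (J + 1) :=
            Nat.mul_le_mul_left _ (Nat.pow_le_pow_right (by omega) (by omega))
        _ = C2.card * ((2 * r) ^ (J + 1) * m ^ (J * d)) := by ring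
        _ ≤ (C'.card * ((2 * r) ^ (J + 1) * m ^ (J * d)) ^ T) *
              ((2 * r) ^ (J + 1) * m ^ (J * d)) := Nat.mul_le_mul_right _ h2
        _ = C'.card * ((2 * r) ^ (J + 1) * m ^ (J * d)) ^ (T + 1) := by
            rw [pow_succ ((2 * r) ^ (J + 1) * m ^ (J * d)) T]; ring
    · intro x hx y hy
      have hx2 := hR2mem x (hR'1 hx)
      have hy2 := hC2mem y (hC'1 hy)
      rw [hff (inp σ τ K p q h x y) ?_]
      · exact h3 x hx y hy
      · ext i
        simp only [inp, he, mem_inter, mem_filter]
        constructor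
        · rintro ⟨⟨_, h5⟩, h6⟩
          refine ⟨h6, fun hK => ?_⟩
          rw [← hx2.2 i (mem_inter.2 ⟨h6, hK⟩), ← hy2.2 i (mem_inter.2 ⟨h6, hK⟩)]
          exact h5 hK
        · rintro ⟨h6, h5⟩
          refine ⟨⟨⟨hAR x hx2.1 h6, hAy y hy2.1 h6⟩, fun hK => ?_⟩, h6⟩
          rw [hx2.2 i (mem_inter.2 ⟨h6, hK⟩), hy2.2 i (mem_inter.2 ⟨h6, hK⟩)]
          exact h5 hK

end Pool.Agent.Helper25.Comp
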