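import Mathlib
import Pool.Agent.Helper25.Meet.Latt
set_option autoImplicit false

/-!
# Functions on (semilattice) × (cube) are sparse set functions
-/

namespace Pool.Agent.Helper25.Comp

open Finset
open Pool.Agent.Helper25.Meet (IsMob)

theorem exists_sparse {L J : Type*} [Fintype L] [SemilatticeInf L] [Fintype J]
    [DecidableEq L] [DecidableEq J] (φ : L → Finset J → ℝ) (hφ : ∀ a z, φ a z = 0 ∨ φ a z = 1)
    (e : L × Finset J → ℝ)
    (he : ∀ a z, φ a z =
      open Classical in ∑ k ∈ univ.filter (fun k : L × Finset J => k.1 ≤ a ∧ k.2 ⊆ z), e k) :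
    ∃ (c f : Finset (L ⊕ J) → ℝ), IsMob c f ∧ (∀ z, f z = 0 ∨ f z = 1) ∧
      (univ.filter (fun S => c S ≠ 0)).card ≤ 2 * (univ.filter (fun k => e k ≠ 0)).card ∧
      (∀ S, c S ≠ 0 → ∃ k, e (k, S.toRight) ≠ 0) ∧
      ∀ (a b : L) (z : Finset J),
        f ((open Classical in univ.filter (fun m => ¬ a ≤ m ∧ ¬ b ≤ m)).disjSum z) =
          φ (a ⊓ b) z := by
  classical
  let Z : L → Finset L := fun a => univ.filter (fun m => ¬ a ≤ m)
  let c : Finset (L ⊕ J) → ℝ := fun S =>
    (∑ k ∈ univ.filter (fun k => Z k = S.toLeft), e (k, S.toRight)) +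
      if S.toLeft = univ then - ∑ k, e (k, S.toRight) else 0
  let f : Finset (L ⊕ J) → ℝ := fun z => ∑ S ∈ z.powerset, c S
  have hZ : ∀ k m, m ∈ Z k ↔ ¬ k ≤ m := fun k m => by simp [Z]
  have hf : ∀ (z1 : Finset L) (z2 : Finset J), f (z1.disjSum z2) =
      ∑ S2 ∈ z2.powerset, ((∑ k ∈ univ.filter (fun k => Z k ⊆ z1), e (k, S2)) +
        if z1 = univ then - ∑ k, e (k, S2) else 0) := by
    intro z1 z2
    have h1 : f (z1.disjSum z2) = ∑ p ∈ z2.powerset ×ˢ z1.powerset, c (p.2.disjSum p.1) := by
      refine sum_nbij' (fun S => (S.toRight, S.toLeft)) (fun p => p.2.disjSum p.1) ?_ ?_ ?_ ?_ ?_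
      · intro S hS
        rw [mem_powerset, subset_disjSum] at hS
        rw [mem_product, mem_powerset, mem_powerset]
        exact ⟨hS.2, hS.1⟩
      · intro p hp
        rw [mem_product, mem_powerset, mem_powerset] at hp
        rw [mem_powerset, subset_disjSum, toLeft_disjSum, toRight_disjSum]
        exact ⟨hp.2, hp.1⟩
      · intro S _
        exact toLeft_disjSum_toRight
      · intro p _
        simp
      · intro S _
        simp only [toLeft_disjSum_toRight]
    rw [h1, sum_product]
    refine sum_congr rfl fun S2 _ => ?_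
    simp only [c, toLeft_disjSum, toRight_disjSum, sum_add_distrib]
    congr 1
    · rw [sum_comm' (t' := univ.filter (fun k => Z k ⊆ z1)) (s' := fun k => {Z k})]
      · simp
      · intro S k
        simp only [mem_powerset, mem_filter, mem_univ, true_and, mem_singleton]
        constructor
        · rintro ⟨h1, h2⟩
          exact ⟨h2.symm, h2 ▸ h1⟩
        · rintro ⟨h1, h2⟩
          exact ⟨h1 ▸ h2, h1.symm⟩
    · rw [sum_ite_eq']
      simp only [mem_powerset, univ_subset_iff]
  have hne : ∀ z1 z2, z1 ≠ univ → ∀ m0, (∀ k, Z k ⊆ z1 ↔ k ≤ m0) →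
      f (z1.disjSum z2) = φ m0 z2 := by
    intro z1 z2 hz m0 hm
    rw [hf, he]
    simp only [if_neg hz, add_zero]
    have h2 : (univ.filter (fun k : L × Finset J => k.1 ≤ m0 ∧ k.2 ⊆ z2)) =
        (univ.filter (fun k : L => k ≤ m0)) ×ˢ z2.powerset := by
      ext ⟨k, T⟩
      simp
    rw [h2, sum_product_right]
    refine sum_congr rfl fun S2 _ => ?_
    refine sum_congr ?_ fun _ _ => rfl
    ext k
    simp only [mem_filter, mem_univ, true_and]
    exact hm k
  have hZuniv : ∀ k, Z k ≠ univ := by
    intro k h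
    have : k ∈ Z k := by rw [h]; exact mem_univ _
    exact (hZ k k).1 this le_rfl
  have hcl : ∀ S, c S ≠ 0 → (∃ k, e (k, S.toRight) ≠ 0 ∧ S = (Z k).disjSum S.toRight) ∨
      (∃ k, e (k, S.toRight) ≠ 0 ∧ S = (univ : Finset L).disjSum S.toRight) := by
    intro S hS
    by_cases hSu : S.toLeft = univ
    · right
      have h2 : ∑ k, e (k, S.toRight) ≠ 0 := by
        intro h0
        apply hS
        simp only [c, if_pos hSu, h0, neg_zero, add_zero]
        rw [filter_eq_empty_iff.2, sum_empty]
        intro k _ hk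
        exact hZuniv k (hk.trans hSu)
      obtain ⟨k, _, hk⟩ := exists_ne_zero_of_sum_ne_zero h2
      exact ⟨k, hk, by rw [← hSu, toLeft_disjSum_toRight]⟩
    · left
      have h2 : ∑ k ∈ univ.filter (fun k => Z k = S.toLeft), e (k, S.toRight) ≠ 0 := by
        have := hS
        simp only [c, if_neg hSu, add_zero] at this
        exact this
      obtain ⟨k, hk, hek⟩ := exists_ne_zero_of_sum_ne_zero h2
      rw [mem_filter] at hk
      exact ⟨k, hek, by rw [hk.2, toLeft_disjSum_toRight]⟩
  refine ⟨c, f, fun z => rfl, fun z => ?_, ?_, ?_, fun a b z => ?_⟩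
  · rw [← toLeft_disjSum_toRight (u := z)]
    by_cases hz : z.toLeft = univ
    · left
      rw [hf]
      apply sum_eq_zero
      intro S2 _
      rw [if_pos hz]
      have : univ.filter (fun k => Z k ⊆ z.toLeft) = univ := by
        refine filter_true_of_mem fun k _ => ?_
        rw [hz]
        exact subset_univ _
      rw [this, add_neg_cancel]
    · have hcne : (z.toLeftᶜ).Nonempty := by
        rw [nonempty_iff_ne_empty]
        intro h
        exact hz ((compl_eq_empty_iff z.toLeft).1 h)
      have h1 := hne z.toLeft z.toRight hz ((z.toLeftᶜ).inf' hcne id) (fun k => by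
        rw [le_inf'_iff]
        constructor
        · intro h m hm
          by_contra hc
          exact (mem_compl.1 hm) (h ((hZ k m).2 hc))
        · intro h m hm
          by_contra hc
          exact (hZ k m).1 hm (h m (mem_compl.2 hc)))
      rw [h1]
      exact hφ _ _
  · have h1 : univ.filter (fun S => c S ≠ 0) ⊆
        ((univ.filter (fun k => e k ≠ 0)).image (fun k => (Z k.1).disjSum k.2)) ∪
        ((univ.filter (fun k => e k ≠ 0)).image
          (fun k : L × Finset J => (univ : Finset L).disjSum k.2)) := by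
      intro S hS
      rw [mem_filter] at hS
      rw [mem_union, mem_image, mem_image]
      rcases hcl S hS.2 with ⟨k, hk, hS'⟩ | ⟨k, hk, hS'⟩
      · exact Or.inl ⟨(k, S.toRight), by simpa using hk, hS'.symm⟩
      · exact Or.inr ⟨(k, S.toRight), by simpa using hk, hS'.symm⟩
    refine (card_le_card h1).trans ((card_union_le _ _).trans ?_)
    rw [two_mul]
    exact Nat.add_le_add card_image_le card_image_le
  · intro S hS
    rcases hcl S hS with ⟨k, hk, _⟩ | ⟨k, hk, _⟩ <;> exact ⟨k, hk⟩
  · refine hne _ _ ?_ _ fun k => ?_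
    · intro h
      have h2 : a ∈ univ.filter (fun m => ¬ a ≤ m ∧ ¬ b ≤ m) := by rw [h]; exact mem_univ _
      exact (mem_filter.1 h2).2.1 le_rfl
    · rw [le_inf_iff]
      constructor
      · intro h
        constructor
        · by_contra hc
          exact (mem_filter.1 (h ((hZ k a).2 hc))).2.1 le_rfl
        · by_contra hc
          exact (mem_filter.1 (h ((hZ k b).2 hc))).2.2 le_rfl
      · rintro ⟨h1, h2⟩ m hm
        have h3 := (hZ k m).1 hm
        rw [mem_filter]
        exact ⟨mem_univ _, fun h4 => h3 (h1.trans h4), fun h4 => h3 (h2.trans h4)⟩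

end Pool.Agent.Helper25.Comp
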