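import Mathlib
set_option autoImplicit false

/-!
# The rank of a composed matrix is exponential in the number of rich coordinates of a monomial
-/

namespace Pool.Agent.Helper25.Comp

open Finset Matrix

theorem sum_sum_prod {J : Type*} [Fintype J] [DecidableEq J] {X Y : J → Type*}
    [∀ i, Fintype (X i)] [∀ i, Fintype (Y i)] (F : ∀ i, X i → Y i → ℝ) :
    ∑ x : (∀ i, X i), ∑ y : (∀ i, Y i), ∏ i, F i (x i) (y i) = ∏ i, ∑ a, ∑ b, F i a b := by
  rw [Finset.prod_univ_sum, Fintype.piFinset_univ]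
  refine sum_congr rfl fun x _ => ?_
  rw [Finset.prod_univ_sum, Fintype.piFinset_univ]

theorem tensor_rank {J : Type*} [Fintype J] [DecidableEq J] {X Y : J → Type*}
    [∀ i, Fintype (X i)] [∀ i, Fintype (Y i)] (G : ∀ i, X i → Y i → ℝ) (c : Finset J → ℝ)
    (D S : Finset J) (hDS : D ⊆ S) (hS : c S ≠ 0)
    (P : ∀ i, Fin 2 → X i → ℝ) (Q : ∀ i, Fin 2 → Y i → ℝ)
    (h0 : ∀ i ∈ D, ∀ k l, ∑ x, ∑ y, P i k x * Q i l y = 0)
    (h1 : ∀ i ∈ D, ∀ k l, ∑ x, ∑ y, P i k x * G i x y * Q i l y = if k = l then 1 else 0)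
    (a1 a0 : ∀ i, X i) (b1 b0 : ∀ i, Y i) (hG1 : ∀ i, G i (a1 i) (b1 i) = 1)
    (hG0 : ∀ i, G i (a0 i) (b0 i) = 0) :
    2 ^ D.card ≤ (Matrix.of fun (x : ∀ i, X i) (y : ∀ i, Y i) =>
      ∑ T : Finset J, c T * ∏ i ∈ T, G i (x i) (y i)).rank := by
  classical
  set M : Matrix (∀ i, X i) (∀ i, Y i) ℝ := Matrix.of fun (x : ∀ i, X i) (y : ∀ i, Y i) =>
      ∑ T : Finset J, c T * ∏ i ∈ T, G i (x i) (y i) with hM
  obtain ⟨T0, -, hT0⟩ := (Set.toFinite {T : Finset J | D ⊆ T ∧ c T ≠ 0}).exists_le_minimal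
    (a := S) ⟨hDS, hS⟩
  have hDT0 : D ⊆ T0 := hT0.1.1
  have hcT0 : c T0 ≠ 0 := hT0.1.2
  have hmin : ∀ T, D ⊆ T → T ⊆ T0 → T ≠ T0 → c T = 0 := by
    intro T h2 h3 h4
    by_contra h5
    exact h4 (subset_antisymm h3 (hT0.2 ⟨h2, h5⟩ h3))
  let A : (D → Fin 2) → ∀ i, X i → ℝ := fun κ i a =>
    if h : i ∈ D then P i (κ ⟨i, h⟩) a else
      if i ∈ T0 then (if a = a1 i then 1 else 0) else (if a = a0 i then 1 else 0)
  let B : (D → Fin 2) → ∀ i, Y i → ℝ := fun κ i b =>
    if h : i ∈ D then Q i (κ ⟨i, h⟩) b else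
      if i ∈ T0 then (if b = b1 i then 1 else 0) else (if b = b0 i then 1 else 0)
  let U : Matrix (D → Fin 2) (∀ i, X i) ℝ := Matrix.of fun κ x => ∏ i, A κ i (x i)
  let V : Matrix (∀ i, Y i) (D → Fin 2) ℝ := Matrix.of fun y κ => ∏ i, B κ i (y i)
  -- one coordinate
  have hval : ∀ (κ l : D → Fin 2) (T : Finset J) (i : J),
      ∑ a, ∑ b, A κ i a * (if i ∈ T then G i a b else 1) * B l i b =
        if h : i ∈ D then (if i ∈ T then (if κ ⟨i, h⟩ = l ⟨i, h⟩ then 1 else 0) else 0)
          else (if i ∈ T then (if i ∈ T0 then 1 else 0) else 1) := by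
    intro κ l T i
    by_cases hD : i ∈ D
    · simp only [A, B, hD, dite_true]
      by_cases hT : i ∈ T
      · simp only [hT, if_true]
        exact h1 i hD _ _
      · simp only [hT, if_false, mul_one]
        exact h0 i hD _ _
    · simp only [A, B, hD, dite_false]
      by_cases hi0 : i ∈ T0
      · simp only [hi0, if_true]
        rw [sum_eq_single (a1 i), sum_eq_single (b1 i)]
        · by_cases hT : i ∈ T <;> simp [hT, hG1]
        · intro b _ hb; simp [hb]
        · intro h; exact absurd (mem_univ _) h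
        · intro a _ ha; simp [ha]
        · intro h; exact absurd (mem_univ _) h
      · simp only [hi0, if_false]
        rw [sum_eq_single (a0 i), sum_eq_single (b0 i)]
        · by_cases hT : i ∈ T <;> simp [hT, hG0]
        · intro b _ hb; simp [hb]
        · intro h; exact absurd (mem_univ _) h
        · intro a _ ha; simp [ha]
        · intro h; exact absurd (mem_univ _) h
  have hprod : ∀ (κ l : D → Fin 2) (T : Finset J),
      ∏ i, ∑ a, ∑ b, A κ i a * (if i ∈ T then G i a b else 1) * B l i b =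
        if D ⊆ T ∧ T ⊆ T0 ∧ κ = l then 1 else 0 := by
    intro κ l T
    simp only [hval]
    split_ifs with h
    · obtain ⟨h2, h3, rfl⟩ := h
      apply prod_eq_one
      intro i _
      by_cases hD : i ∈ D
      · simp [hD, h2 hD]
      · by_cases hT : i ∈ T
        · simp [hD, hT, h3 hT]
        · simp [hD, hT]
    · by_cases h2 : D ⊆ T
      · by_cases h3 : T ⊆ T0
        · have h4 : κ ≠ l := fun h4 => h ⟨h2, h3, h4⟩
          obtain ⟨i, hi⟩ := Function.ne_iff.1 h4
          apply prod_eq_zero (mem_univ i.1)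
          simp [i.2, hi]
        · obtain ⟨i, hi, hi'⟩ := not_subset.1 h3
          apply prod_eq_zero (mem_univ i)
          have : i ∉ D := fun hD => hi' (hDT0 hD)
          simp [this, hi, hi']
      · obtain ⟨i, hi, hi'⟩ := not_subset.1 h2
        apply prod_eq_zero (mem_univ i)
        simp [hi, hi']
  have hUMV : U * M * V = c T0 • (1 : Matrix (D → Fin 2) (D → Fin 2) ℝ) := by
    ext κ l
    have e1 : (U * M * V) κ l = ∑ T : Finset J, c T *
        ∏ i, ∑ a, ∑ b, A κ i a * (if i ∈ T then G i a b else 1) * B l i b := by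
      rw [Matrix.mul_apply]
      simp only [Matrix.mul_apply, U, V, hM, Matrix.of_apply]
      have e2 : ∀ T : Finset J, c T *
          ∏ i, ∑ a, ∑ b, A κ i a * (if i ∈ T then G i a b else 1) * B l i b =
          ∑ y : (∀ i, Y i), ∑ x : (∀ i, X i),
            (∏ i, A κ i (x i)) * (c T * ∏ i ∈ T, G i (x i) (y i)) * (∏ i, B l i (y i)) := by
        intro T
        rw [← sum_sum_prod, sum_comm, mul_sum]
        refine sum_congr rfl fun y _ => ?_
        rw [mul_sum]
        refine sum_congr rfl fun x _ => ?_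
        rw [prod_mul_distrib, prod_mul_distrib, prod_ite_mem, univ_inter]
        ring
      simp only [e2]
      rw [sum_comm]
      refine sum_congr rfl fun y _ => ?_
      rw [sum_mul, sum_comm]
      refine sum_congr rfl fun x _ => ?_
      rw [mul_sum, sum_mul]
    rw [e1]
    simp only [hprod]
    rw [sum_eq_single T0]
    · rw [Matrix.smul_apply, Matrix.one_apply, smul_eq_mul]
      simp [hDT0]
    · intro T _ hT
      by_cases h : D ⊆ T ∧ T ⊆ T0 ∧ κ = l
      · rw [hmin T h.1 h.2.1 hT, zero_mul]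
      · rw [if_neg h, mul_zero]
    · intro h; exact absurd (mem_univ _) h
  have hrank : (c T0 • (1 : Matrix (D → Fin 2) (D → Fin 2) ℝ)).rank = 2 ^ D.card := by
    have h2 : IsUnit (c T0 • (1 : Matrix (D → Fin 2) (D → Fin 2) ℝ)) := by
      have : c T0 • (1 : Matrix (D → Fin 2) (D → Fin 2) ℝ) =
          algebraMap ℝ (Matrix (D → Fin 2) (D → Fin 2) ℝ) (c T0) := by
        rw [Algebra.algebraMap_eq_smul_one]
      rw [this]
      exact (IsUnit.mk0 _ hcT0).map _
    rw [Matrix.rank_of_isUnit _ h2]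
    simp
  rw [← hrank, ← hUMV]
  exact (Matrix.rank_mul_le_left _ _).trans (Matrix.rank_mul_le_right _ _)

end Pool.Agent.Helper25.Comp
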