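import Mathlib
import Pool.Agent.Helper25.Comp.Rect
import Pool.Agent.Helper25.Comp.Tensor
import Pool.Agent.Helper25.Comp.Gadget
import Pool.Agent.Helper25.Comp.Sparse
import Pool.Agent.Helper25.Comp.Graph
import Pool.Agent.Helper25.Meet.Cover
set_option autoImplicit false

/-!
# Covering the zeros of a composed function of low rank
-/

namespace Pool.Agent.Helper25.Comp

open Finset
open Pool.Agent.Helper25.Meet (IsMob)

/-- the real matrix of a Boolean matrix -/
def rm {R C : Type*} (M : R → C → Bool) : Matrix R C ℝ := Matrix.of fun x y => br (M x y)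

/-- the density bound -/
def dens (r m d : ℕ) : ℕ :=
  ((2 * r) ^ (8 * (Nat.log 2 r + 1) ^ 2 + 1 + 1) * m ^ ((8 * (Nat.log 2 r + 1) ^ 2 + 1) * d)) ^
    ((4 * (8 * (Nat.log 2 r + 1) ^ 2 + 1) - 1) * (Nat.log 2 r + 1))

/-- LARGE CONSTANT RECTANGLES -/
theorem exists_rect {I ρ κ : Type*} [Fintype I] [DecidableEq I] {m : ℕ} (r d : ℕ) (hr1 : 1 ≤ r)
    (hm1 : 1 ≤ m) (σ : ρ → Finset I) (τ : κ → Finset I) (K : Finset I) (p : ρ → I → Fin m)
    (q : κ → I → Fin m) (h : I → Fin m → Fin m → Bool) (c f : Finset I → ℝ) (hm : IsMob c f)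
    (h01 : ∀ z, f z = 0 ∨ f z = 1) (hr : (univ.filter (fun S => c S ≠ 0)).card ≤ r)
    (hd : ∀ S, c S ≠ 0 → (S ∩ K).card ≤ d)
    (R : Finset ρ) (C : Finset κ) (hR : R.Nonempty) (hC : C.Nonempty) :
    ∃ R' ⊆ R, ∃ C' ⊆ C, ∃ v : ℝ, R.card ≤ R'.card * dens r m d ∧
      C.card ≤ C'.card * dens r m d ∧ ∀ x ∈ R', ∀ y ∈ C', f (inp σ τ K p q h x y) = v := by
  classical
  have h := exists_rect_aux (I := I) r (8 * (Nat.log 2 r + 1) ^ 2 + 1) d hr1 (Nat.lt_succ_self _)
    hm1 σ τ K p q h ((4 * (8 * (Nat.log 2 r + 1) ^ 2 + 1) - 1) * (Nat.log 2 r + 1)) c f hm h01 hr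
    hd R C hR hC (by
      intro y _
      have h1 : (act c σ R (τ y)).card ≤ r := by
        refine le_trans (card_le_card ?_) hr
        intro S hS
        simp only [act, mem_filter, mem_univ, true_and] at hS ⊢
        exact hS.2.1
      have h2 := Pool.Agent.Helper25.Meet.start_potential r
        (4 * (8 * (Nat.log 2 r + 1) ^ 2 + 1) - 1) (by omega)
      have h3 : 4 * (8 * (Nat.log 2 r + 1) ^ 2 + 1) - 1 + 1 =
        4 * (8 * (Nat.log 2 r + 1) ^ 2 + 1) := by omega
      rw [h3] at h2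
      exact lt_of_le_of_lt (Nat.mul_le_mul_right _ h1) h2)
  exact h

/-- covering theorem for composed functions -/
theorem compose_cover_aux {I L : Type*} [Fintype I] [DecidableEq I] [Fintype L]
    [SemilatticeInf L]
    {X Y : I → Type*} [∀ i, Fintype (X i)] [∀ i, Fintype (Y i)] (m : ℕ) (hm : 1 ≤ m)
    (g : ∀ i, X i → Y i → Bool) (hX : ∀ i, (Set.range (g i)).ncard ≤ m)
    (hY : ∀ i, (Set.range (fun y x => g i x y)).ncard ≤ m)
    (hg : ∀ i, ¬ ∃ (a : X i → Bool) (b : Y i → Bool), ∀ x y, g i x y = xor (a x) (b y))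
    (f : (I → Bool) → L → Bool) (ρ : ℕ) (hρ : 1 ≤ ρ) (hrk : (rm (compose g f)).rank ≤ ρ) :
    ∃ (k : ℕ) (A : Fin k → Finset ((∀ i, X i) × L)) (B : Fin k → Finset ((∀ i, Y i) × L)),
      (∀ i, ∀ x ∈ A i, ∀ y ∈ B i, compose g f x y = false) ∧
      (∀ x y, compose g f x y = false → ∃ i, x ∈ A i ∧ y ∈ B i) ∧
      k ≤ 2 * (4 * dens (2 * ρ) m (Nat.log 2 ρ) * ρ) ^ (Nat.log 2 ρ + 2) := by
  classical
  choose s x1 x0 y1 y0 h11 h10 h01 h00 hty using fun i => gadget (g i) (hg i)
  -- the normalised gadgets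
  obtain ⟨g', hg'⟩ : ∃ g' : ∀ i, X i → Y i → Bool, ∀ i x y, g' i x y = xor (s i) (g i x y) :=
    ⟨fun i x y => xor (s i) (g i x y), fun _ _ _ => rfl⟩
  have hgg' : ∀ i x y, g i x y = xor (s i) (g' i x y) := by
    intro i x y
    rw [hg']
    cases s i <;> cases g i x y <;> rfl
  let KR : Finset I := univ.filter (fun i => Rich (g' i))
  have hKR : ∀ i, i ∈ KR ↔ Rich (g' i) := fun i => by simp [KR]
  have hAnd : ∀ i, i ∉ KR → ∃ (α : X i → Bool) (β : Y i → Bool), ∀ x y, g' i x y = (α x && β y) := by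
    intro i hi
    rcases hty i with h | h
    · obtain ⟨α, β, h⟩ := h
      exact ⟨α, β, fun x y => by rw [hg']; exact h x y⟩
    · exfalso
      apply hi
      rw [hKR]
      have : g' i = fun x y => xor (s i) (g i x y) := by
        funext x y; exact hg' i x y
      rw [this]
      exact h
  have hAnd' : ∀ i, ∃ (α : X i → Bool) (β : Y i → Bool), i ∉ KR → ∀ x y, g' i x y = (α x && β y) := by
    intro i
    by_cases hi : i ∈ KR
    · exact ⟨fun _ => true, fun _ => true, fun h => absurd hi h⟩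
    · obtain ⟨α, β, h⟩ := hAnd i hi
      exact ⟨α, β, fun _ => h⟩
  choose α β hαβ using hAnd'
  -- the outer function
  let φ : L → Finset I → ℝ := fun a z => br (f (fun i => xor (s i) (decide (i ∈ z))) a)
  have hφ : ∀ a z, φ a z = 0 ∨ φ a z = 1 := by
    intro a z
    simp only [φ, br]
    split_ifs
    · exact Or.inr rfl
    · exact Or.inl rfl
  let zz : (∀ i, X i) → (∀ i, Y i) → Finset I := fun x y => univ.filter (fun i => g' i (x i) (y i) = true)
  have hzz : ∀ x y i, i ∈ zz x y ↔ g' i (x i) (y i) = true := fun x y i => by simp [zz]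
  have hM : ∀ (x : (∀ i, X i) × L) (y : (∀ i, Y i) × L),
      rm (compose g f) x y = φ (x.2 ⊓ y.2) (zz x.1 y.1) := by
    intro x y
    simp only [rm, Matrix.of_apply, compose, φ]
    congr 2
    funext i
    rw [hgg']
    congr 1
    cases hh : g' i (x.1 i) (y.1 i)
    · have : i ∉ zz x.1 y.1 := by rw [hzz, hh]; simp
      simp [this]
    · have : i ∈ zz x.1 y.1 := by rw [hzz, hh]
      simp [this]
  -- Moebius coefficients
  obtain ⟨e, he⟩ := Pool.Agent.Helper25.Meet.Latt.exists_mob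
    (fun k : L × Finset I => φ k.1 k.2)
  have he' : ∀ a z, φ a z = ∑ k ∈ univ.filter (fun k : L × Finset I => k.1 ≤ a ∧ k.2 ⊆ z), e k := by
    intro a z
    rw [he (a, z)]
    refine sum_congr ?_ fun _ _ => rfl
    ext k
    simp only [mem_filter, mem_univ, true_and, Prod.le_def]
  -- sparsity
  have hsupp : (univ.filter (fun k => e k ≠ 0)).card ≤ ρ := by
    have h1 := Pool.Agent.Helper25.Meet.Latt.card_le_rank
      (fun k : L × Finset I => φ k.1 k.2) e he
    refine h1.trans (le_trans ?_ hrk)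
    have h2 : (Matrix.of fun a b : L × Finset I => φ (a ⊓ b).1 (a ⊓ b).2) =
        (rm (compose g f)).submatrix
          (fun a : L × Finset I => ((fun i => if i ∈ a.2 then x1 i else x0 i), a.1))
          (fun b : L × Finset I => ((fun i => if i ∈ b.2 then y1 i else y0 i), b.1)) := by
      ext a b
      rw [Matrix.submatrix_apply, hM, Matrix.of_apply]
      congr 1
      ext i
      rw [hzz, hg']
      simp only [Prod.snd_inf, inf_eq_inter, mem_inter]
      by_cases h3 : i ∈ a.2 <;> by_cases h4 : i ∈ b.2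
      · simp [h3, h4, h11 i]
      · simp [h3, h4, h10 i]
      · simp [h3, h4, h01 i]
      · simp [h3, h4, h00 i]
    rw [h2]
    exact Matrix.rank_submatrix_le _ _ _
  -- the degree in the rich coordinates
  have hdeg : ∀ k T, e (k, T) ≠ 0 → (T ∩ KR).card ≤ Nat.log 2 ρ := by
    intro k T hkT
    obtain ⟨k', -, hk'⟩ := (Set.toFinite {k : L | e (k, T) ≠ 0}).exists_le_minimal (a := k) hkT
    let cc : Finset I → ℝ := fun T' => ∑ k'' ∈ univ.filter (fun k'' => k'' ≤ k'), e (k'', T')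
    have hcc : cc T ≠ 0 := by
      have : cc T = e (k', T) := by
        simp only [cc]
        rw [sum_eq_single k']
        · intro b hb hbk
          by_contra hne
          have hb' : b ≤ k' := (mem_filter.1 hb).2
          exact hbk (le_antisymm hb' (hk'.2 hne hb'))
        · intro h
          exact (h (by simp)).elim
      rw [this]
      exact hk'.1
    have hR : ∀ i, ∃ (P : Fin 2 → X i → ℝ) (Q : Fin 2 → Y i → ℝ), i ∈ T ∩ KR →
        (∀ k l, ∑ x, ∑ y, P k x * Q l y = 0) ∧
        ∀ k l, ∑ x, ∑ y, P k x * br (g' i x y) * Q l y = if k = l then 1 else 0 := by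
      intro i
      by_cases hi : i ∈ T ∩ KR
      · obtain ⟨P, Q, h1, h2⟩ := (hKR i).1 (mem_inter.1 hi).2
        exact ⟨P, Q, fun _ => ⟨h1, h2⟩⟩
      · exact ⟨fun _ _ => 0, fun _ _ => 0, fun h => absurd h hi⟩
    choose P Q hPQ using hR
    have h1 := tensor_rank (fun i x y => br (g' i x y)) cc (T ∩ KR) T inter_subset_left hcc P Q
      (fun i hi => (hPQ i hi).1) (fun i hi => (hPQ i hi).2) x1 x0 y1 y0
      (fun i => by simp only [br, hg', h11 i, if_true])
      (fun i => by simp only [br, hg', h00 i]; rfl)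
    have h2 : (Matrix.of fun (x : ∀ i, X i) (y : ∀ i, Y i) =>
        ∑ T : Finset I, cc T * ∏ i ∈ T, br (g' i (x i) (y i))) =
        (rm (compose g f)).submatrix (fun x => (x, k')) (fun y => (y, k')) := by
      ext x y
      rw [Matrix.submatrix_apply, hM, Matrix.of_apply, he']
      simp only [inf_idem]
      have h3 : (univ.filter (fun k : L × Finset I => k.1 ≤ k' ∧ k.2 ⊆ zz x y)) =
          (univ.filter (fun k : L => k ≤ k')) ×ˢ (zz x y).powerset := by
        ext ⟨k, T⟩
        simp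
      rw [h3, sum_product_right]
      rw [← sum_subset (subset_univ (zz x y).powerset)]
      · refine sum_congr rfl fun T' hT' => ?_
        rw [prod_eq_one, mul_one]
        intro i hi
        have h4 := (hzz x y i).1 (mem_powerset.1 hT' hi)
        simp only [br, h4, if_true]
      · intro T' _ hT'
        rw [mem_powerset, not_subset] at hT'
        obtain ⟨i, hi, hi'⟩ := hT'
        rw [hzz] at hi'
        rw [prod_eq_zero hi, mul_zero]
        simp only [br, hi']
        rfl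
    rw [h2] at h1
    have h3 : 2 ^ (T ∩ KR).card ≤ ρ := h1.trans ((Matrix.rank_submatrix_le _ _ _).trans hrk)
    exact (Nat.le_log_iff_pow_le (by norm_num) (by omega)).2 h3
  -- the sparse set function
  obtain ⟨c, F, hmob, hF01, hcF, hcS, hFφ⟩ := exists_sparse φ hφ e (fun a z => by
    rw [he' a z])
  have hc2 : (univ.filter (fun S => c S ≠ 0)).card ≤ 2 * ρ := by
    refine hcF.trans ?_
    exact Nat.mul_le_mul_left _ hsupp
  let K : Finset (L ⊕ I) := (∅ : Finset L).disjSum KR
  have hd : ∀ S, c S ≠ 0 → (S ∩ K).card ≤ Nat.log 2 ρ := by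
    intro S hS
    obtain ⟨k, hk⟩ := hcS S hS
    have h1 : (S ∩ K).card = (S.toRight ∩ KR).card := by
      rw [← card_toLeft_add_card_toRight, toLeft_inter, toRight_inter]
      simp only [K, toLeft_disjSum, toRight_disjSum, inter_empty, card_empty, zero_add]
    rw [h1]
    exact hdeg k _ hk
  -- rows and columns
  have hemX : ∀ i, ∃ u : X i → Fin m, ∀ a a', u a = u a' → g i a = g i a' := by
    intro i
    have h1 : Fintype.card (Set.range (g i)) ≤ Fintype.card (Fin m) := by
      rw [Fintype.card_fin, ← Nat.card_eq_fintype_card, Nat.card_coe_set_eq]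
      exact hX i
    obtain ⟨u⟩ := Function.Embedding.nonempty_of_card_le h1
    refine ⟨fun a => u ⟨g i a, a, rfl⟩, fun a a' h => ?_⟩
    exact congrArg Subtype.val (u.injective h)
  have hemY : ∀ i, ∃ u : Y i → Fin m, ∀ b b', u b = u b' → ∀ a, g i a b = g i a b' := by
    intro i
    have h1 : Fintype.card (Set.range (fun y x => g i x y)) ≤ Fintype.card (Fin m) := by
      rw [Fintype.card_fin, ← Nat.card_eq_fintype_card, Nat.card_coe_set_eq]
      exact hY i
    obtain ⟨u⟩ := Function.Embedding.nonempty_of_card_le h1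
    refine ⟨fun b => u ⟨fun x => g i x b, b, rfl⟩, fun b b' h a => ?_⟩
    exact congrFun (congrArg Subtype.val (u.injective h)) a
  choose uX huX using hemX
  choose uY huY using hemY
  let σ : (∀ i, X i) × L → Finset (L ⊕ I) := fun x =>
    (univ.filter (fun m => ¬ x.2 ≤ m)).disjSum (univ.filter (fun i => i ∈ KR ∨ α i (x.1 i) = true))
  let τ : (∀ i, Y i) × L → Finset (L ⊕ I) := fun y =>
    (univ.filter (fun m => ¬ y.2 ≤ m)).disjSum (univ.filter (fun i => i ∈ KR ∨ β i (y.1 i) = true))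
  let p : (∀ i, X i) × L → L ⊕ I → Fin m := fun x =>
    Sum.elim (fun _ => ⟨0, hm⟩) (fun i => uX i (x.1 i))
  let q : (∀ i, Y i) × L → L ⊕ I → Fin m := fun y =>
    Sum.elim (fun _ => ⟨0, hm⟩) (fun i => uY i (y.1 i))
  let h : L ⊕ I → Fin m → Fin m → Bool := Sum.elim (fun _ _ _ => true)
    (fun i u v => decide (∃ x y, uX i x = u ∧ uY i y = v ∧ g' i x y = true))
  have hinp : ∀ x y, inp σ τ K p q h x y =
      (univ.filter (fun m => ¬ x.2 ≤ m ∧ ¬ y.2 ≤ m)).disjSum (zz x.1 y.1) := by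
    intro x y
    ext v
    cases v with
    | inl m => simp [inp, σ, τ, K]
    | inr i =>
      simp only [inp, σ, τ, K, p, q, h, mem_filter, mem_inter, inr_mem_disjSum, mem_univ,
        true_and, hzz, Sum.elim_inr, decide_eq_true_eq]
      by_cases hi : i ∈ KR
      · simp only [hi, true_or, true_and, true_imp_iff, and_self]
        constructor
        · rintro ⟨a, b, ha, hb, hab⟩
          rw [hg', ← huX i _ _ ha, ← huY i _ _ hb, ← hg']
          exact hab
        · intro hab
          exact ⟨x.1 i, y.1 i, rfl, rfl, hab⟩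
      · simp only [hi, false_or, false_imp_iff, and_true]
        rw [hαβ i hi, Bool.and_eq_true]
  have hFM : ∀ x y, F (inp σ τ K p q h x y) = rm (compose g f) x y := by
    intro x y
    rw [hinp, hM, ← hFφ]
  obtain ⟨k, A, B, hA1, hA2, hk⟩ := Pool.Agent.Helper25.Meet.exists_zero_cover
    (rm (compose g f)) (fun x y => by rw [hM]; exact hφ _ _)
    (dens (2 * ρ) m (Nat.log 2 ρ)) ρ (by
      unfold dens
      apply Nat.one_le_pow
      apply Nat.mul_pos
      · exact pow_pos (by omega) _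
      · exact pow_pos (by omega) _) hρ hrk (by
    intro R C hR hC
    obtain ⟨R', hR', C', hC', v, e1, e2, e3⟩ := exists_rect (2 * ρ) (Nat.log 2 ρ) (by omega) hm
      σ τ K p q h c F hmob hF01 hc2 hd R C hR hC
    exact ⟨R', hR', C', hC', v, e1, e2, fun x hx y hy => by rw [← hFM]; exact e3 x hx y hy⟩)
  have hzero : ∀ x y, rm (compose g f) x y = 0 ↔ compose g f x y = false := by
    intro x y
    simp only [rm, Matrix.of_apply, br]
    cases compose g f x y <;> simp
  exact ⟨k, A, B, fun i x hx y hy => (hzero x y).1 (hA1 i x hx y hy),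
    fun x y hxy => hA2 x y ((hzero x y).2 hxy), hk⟩

theorem cover_bound (ρ m : ℕ) (hρ : 1 ≤ ρ) :
    2 * (4 * dens (2 * ρ) m (Nat.log 2 ρ) * ρ) ^ (Nat.log 2 ρ + 2) ≤
      2 ^ (71287 * (Nat.log 2 m + 1) * (Nat.log 2 ρ + 1) ^ 7) := by
  set l := Nat.log 2 ρ + 1 with hl
  set μ := Nat.log 2 m + 1 with hμ
  have hl1 : 1 ≤ l := by omega
  have hμ1 : 1 ≤ μ := by omega
  have hρl : ρ < 2 ^ l := Nat.lt_pow_succ_log_self (by norm_num) ρ
  have hmμ : m < 2 ^ μ := Nat.lt_pow_succ_log_self (by norm_num) m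
  have hd : Nat.log 2 ρ ≤ l := by omega
  have hlog : Nat.log 2 (2 * ρ) + 1 = l + 1 := by
    rw [mul_comm, Nat.log_mul_base (by norm_num) (by omega)]
  have hexp : Nat.log 2 ρ + 2 = l + 1 := by omega
  have hl2 : 1 ≤ l ^ 2 := Nat.one_le_pow _ _ hl1
  have hl3 : 1 ≤ l ^ 3 := Nat.one_le_pow _ _ hl1
  have hl6 : l ≤ l ^ 6 := Nat.le_self_pow (by norm_num) l
  have hl6' : 1 ≤ l ^ 6 := Nat.one_le_pow _ _ hl1
  have hl7 : 1 ≤ l ^ 7 := Nat.one_le_pow _ _ hl1
  have hJ : 8 * (l + 1) ^ 2 + 1 ≤ 33 * l ^ 2 := by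
    have h1 : l + 1 ≤ 2 * l := by omega
    have h2 : (l + 1) ^ 2 ≤ (2 * l) ^ 2 := Nat.pow_le_pow_left h1 2
    have h3 : (2 * l) ^ 2 = 4 * l ^ 2 := by ring
    omega
  have h2r : 2 * (2 * ρ) ≤ 2 ^ (3 * l) := by
    calc 2 * (2 * ρ) ≤ 2 * (2 * 2 ^ l) := by omega
      _ = 2 ^ (l + 2) := by rw [pow_add (2 : ℕ) l 2]; ring
      _ ≤ 2 ^ (3 * l) := Nat.pow_le_pow_right (by norm_num) (by omega)
  have hbase : (2 * (2 * ρ)) ^ (8 * (l + 1) ^ 2 + 1 + 1) *
      m ^ ((8 * (l + 1) ^ 2 + 1) * Nat.log 2 ρ) ≤ 2 ^ (135 * μ * l ^ 3) := by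
    calc (2 * (2 * ρ)) ^ (8 * (l + 1) ^ 2 + 1 + 1) * m ^ ((8 * (l + 1) ^ 2 + 1) * Nat.log 2 ρ)
        ≤ (2 ^ (3 * l)) ^ (34 * l ^ 2) * (2 ^ μ) ^ ((33 * l ^ 2) * l) := by
          apply Nat.mul_le_mul
          · refine (Nat.pow_le_pow_left h2r _).trans ?_
            apply Nat.pow_le_pow_right (by positivity)
            omega
          · refine (Nat.pow_le_pow_left hmμ.le _).trans ?_
            apply Nat.pow_le_pow_right (by positivity)
            exact Nat.mul_le_mul hJ hd
      _ = 2 ^ (102 * l ^ 3 + 33 * μ * l ^ 3) := by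
          rw [← pow_mul, ← pow_mul, ← pow_add]
          congr 1; ring
      _ ≤ 2 ^ (135 * μ * l ^ 3) := by
          apply Nat.pow_le_pow_right (by norm_num)
          have : 102 * l ^ 3 ≤ 102 * μ * l ^ 3 := by
            apply Nat.mul_le_mul_right
            omega
          calc 102 * l ^ 3 + 33 * μ * l ^ 3 ≤ 102 * μ * l ^ 3 + 33 * μ * l ^ 3 := by omega
            _ = 135 * μ * l ^ 3 := by ring
  have hdens : dens (2 * ρ) m (Nat.log 2 ρ) ≤ 2 ^ (35640 * μ * l ^ 6) := by
    unfold dens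
    rw [hlog]
    refine (Nat.pow_le_pow_left hbase _).trans ?_
    rw [← pow_mul]
    apply Nat.pow_le_pow_right (by norm_num)
    have h1 : (4 * (8 * (l + 1) ^ 2 + 1) - 1) * (l + 1) ≤ (132 * l ^ 2) * (2 * l) :=
      Nat.mul_le_mul (by omega) (by omega)
    calc 135 * μ * l ^ 3 * ((4 * (8 * (l + 1) ^ 2 + 1) - 1) * (l + 1))
        ≤ 135 * μ * l ^ 3 * ((132 * l ^ 2) * (2 * l)) := Nat.mul_le_mul_left _ h1
      _ = 35640 * μ * l ^ 6 := by ring
  have h6 : 4 * dens (2 * ρ) m (Nat.log 2 ρ) * ρ ≤ 2 ^ (35643 * μ * l ^ 6) := by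
    calc 4 * dens (2 * ρ) m (Nat.log 2 ρ) * ρ ≤ 2 ^ 2 * 2 ^ (35640 * μ * l ^ 6) * 2 ^ l :=
          Nat.mul_le_mul (Nat.mul_le_mul (by norm_num) hdens) hρl.le
      _ = 2 ^ (2 + 35640 * μ * l ^ 6 + l) := by
          rw [pow_add (2 : ℕ) (2 + 35640 * μ * l ^ 6) l, pow_add (2 : ℕ) 2]
      _ ≤ 2 ^ (35643 * μ * l ^ 6) := by
          apply Nat.pow_le_pow_right (by norm_num)
          have h7 : 2 + l ≤ 3 * μ * l ^ 6 := by
            calc 2 + l ≤ 3 * l ^ 6 := by omega
              _ ≤ 3 * μ * l ^ 6 := by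
                  apply Nat.mul_le_mul_right
                  omega
          calc 2 + 35640 * μ * l ^ 6 + l ≤ 35640 * μ * l ^ 6 + 3 * μ * l ^ 6 := by omega
            _ = 35643 * μ * l ^ 6 := by ring
  rw [hexp]
  calc 2 * (4 * dens (2 * ρ) m (Nat.log 2 ρ) * ρ) ^ (l + 1)
      ≤ 2 ^ 1 * (2 ^ (35643 * μ * l ^ 6)) ^ (2 * l) := by
        apply Nat.mul_le_mul (by norm_num)
        refine (Nat.pow_le_pow_left h6 _).trans ?_
        apply Nat.pow_le_pow_right (by positivity)
        omega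
    _ = 2 ^ (1 + 71286 * (μ * l ^ 7)) := by
        have h7 : 35643 * μ * l ^ 6 * (2 * l) = 71286 * (μ * l ^ 7) := by ring
        rw [← pow_mul, h7, ← pow_add]
    _ ≤ 2 ^ (71287 * μ * l ^ 7) := by
        apply Nat.pow_le_pow_right (by norm_num)
        have h8 : 1 ≤ μ * l ^ 7 := Nat.mul_pos hμ1 hl7
        have h9 : 71287 * μ * l ^ 7 = 71287 * (μ * l ^ 7) := by ring
        omega

/-- covering theorem for composed functions -/
theorem compose_cover {I L : Type*} [Fintype I] [DecidableEq I] [Fintype L] [SemilatticeInf L]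
    {X Y : I → Type*} [∀ i, Fintype (X i)] [∀ i, Fintype (Y i)] (m : ℕ) (hm : 1 ≤ m)
    (g : ∀ i, X i → Y i → Bool) (hX : ∀ i, (Set.range (g i)).ncard ≤ m)
    (hY : ∀ i, (Set.range (fun y x => g i x y)).ncard ≤ m)
    (hg : ∀ i, ¬ ∃ (a : X i → Bool) (b : Y i → Bool), ∀ x y, g i x y = xor (a x) (b y))
    (f : (I → Bool) → L → Bool) (ρ : ℕ) (hρ : 1 ≤ ρ) (hrk : (rm (compose g f)).rank ≤ ρ) :
    ∃ (k : ℕ) (A : Fin k → Finset ((∀ i, X i) × L)) (B : Fin k → Finset ((∀ i, Y i) × L)),
      (∀ i, ∀ x ∈ A i, ∀ y ∈ B i, compose g f x y = false) ∧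
      (∀ x y, compose g f x y = false → ∃ i, x ∈ A i ∧ y ∈ B i) ∧
      k ≤ 2 ^ (71287 * (Nat.log 2 m + 1) * (Nat.log 2 ρ + 1) ^ 7) := by
  obtain ⟨k, A, B, h1, h2, h3⟩ := compose_cover_aux m hm g hX hY hg f ρ hρ hrk
  exact ⟨k, A, B, h1, h2, h3.trans (cover_bound ρ m hρ)⟩

section graph

theorem rank_mix {R C : Type*} [Fintype R] [Fintype C] (N B : Matrix R C ℝ)
    (h : ∀ y, (∀ x, N x y = B x y) ∨ (∀ x, N x y = 1)) : N.rank ≤ B.rank + 1 := by
  classical
  have hN : N = B * Matrix.diagonal (fun y => if ∀ x, N x y = B x y then (1 : ℝ) else 0) +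
      Matrix.of fun (_ : R) (y : C) => (1 : ℝ) * (if ∀ x, N x y = B x y then (0 : ℝ) else 1) := by
    ext x y
    rw [Matrix.add_apply, Matrix.mul_diagonal, Matrix.of_apply]
    by_cases h' : ∀ x, N x y = B x y
    · rw [if_pos h', if_pos h', h' x]; ring
    · rw [if_neg h', if_neg h', ((h y).resolve_left h') x]; ring
  rw [hN]
  refine (Pool.Agent.Helper26.rank_add_le _ _).trans ?_
  exact Nat.add_le_add (Matrix.rank_mul_le_left _ _)
    (Pool.Agent.Helper25.Meet.Cover.rank_const_le _ _)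

theorem rank_le_of_zero {R C : Type*} [Fintype R] [Fintype C] (M : R → C → Bool)
    (h0 : (∃ x, ∀ y, M x y = false) ∨ ∃ y, ∀ x, M x y = false)
    [Fintype {p : R × C // M p.1 p.2 = false}] [DecidableRel (matrixGraph M).Adj] :
    (rm M).rank ≤ ((matrixGraph M).adjMatrix ℝ).rank + 1 := by
  classical
  rcases h0 with ⟨x0, h0⟩ | ⟨y0, h0⟩
  · rcases isEmpty_or_nonempty C with hC | ⟨⟨y1⟩⟩
    · have : (rm M).rank ≤ Fintype.card C := Matrix.rank_le_card_width _
      rw [Fintype.card_eq_zero] at this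
      omega
    · -- a vertex in every row that has a zero
      have hv : ∀ x : R, ∃ v : {p : R × C // M p.1 p.2 = false},
          (∃ y, M x y = false) → v.1.1 = x := by
        intro x
        by_cases h : ∃ y, M x y = false
        · obtain ⟨y, hy⟩ := h
          exact ⟨⟨(x, y), hy⟩, fun _ => rfl⟩
        · exact ⟨⟨(x0, y1), h0 y1⟩, fun h' => absurd h' h⟩
      choose v hv using hv
      rw [← Matrix.rank_transpose]
      refine (rank_mix _ (((matrixGraph M).adjMatrix ℝ).submatrix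
        (fun y => ⟨(x0, y), h0 y⟩) v) ?_).trans
        (Nat.add_le_add_right (Matrix.rank_submatrix_le _ _ _) 1)
      intro x
      by_cases h : ∃ y, M x y = false
      · left
        intro y
        rw [Matrix.transpose_apply, Matrix.submatrix_apply, SimpleGraph.adjMatrix_apply]
        have h2 : (matrixGraph M).Adj ⟨(x0, y), h0 y⟩ (v x) ↔ M x y = true := by
          simp [matrixGraph, h0, hv x h]
        simp only [h2, rm, Matrix.of_apply, br]
      · right
        intro y
        push Not at h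
        have := h y
        rw [Matrix.transpose_apply]
        simp only [rm, Matrix.of_apply, br]
        rw [if_pos (by simpa using this)]
  · rcases isEmpty_or_nonempty R with hR | ⟨⟨x1⟩⟩
    · have : (rm M).rank ≤ Fintype.card R := Matrix.rank_le_card_height _
      rw [Fintype.card_eq_zero] at this
      omega
    · have hv : ∀ y : C, ∃ v : {p : R × C // M p.1 p.2 = false},
          (∃ x, M x y = false) → v.1.2 = y := by
        intro y
        by_cases h : ∃ x, M x y = false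
        · obtain ⟨x, hx⟩ := h
          exact ⟨⟨(x, y), hx⟩, fun _ => rfl⟩
        · exact ⟨⟨(x1, y0), h0 x1⟩, fun h' => absurd h' h⟩
      choose v hv using hv
      refine (rank_mix _ (((matrixGraph M).adjMatrix ℝ).submatrix
        (fun x => ⟨(x, y0), h0 x⟩) v) ?_).trans
        (Nat.add_le_add_right (Matrix.rank_submatrix_le _ _ _) 1)
      intro y
      by_cases h : ∃ x, M x y = false
      · left
        intro x
        rw [Matrix.submatrix_apply, SimpleGraph.adjMatrix_apply]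
        have h2 : (matrixGraph M).Adj ⟨(x, y0), h0 x⟩ (v y) ↔ M x y = true := by
          simp [matrixGraph, h0, hv y h]
        simp only [h2, rm, Matrix.of_apply, br]
      · right
        intro x
        push Not at h
        have := h x
        simp only [rm, Matrix.of_apply, br]
        rw [if_pos (by simpa using this)]

theorem colorable_of_cover {R C : Type*} (M : R → C → Bool) (k : ℕ) (A : Fin k → Finset R)
    (B : Fin k → Finset C) (h1 : ∀ i, ∀ x ∈ A i, ∀ y ∈ B i, M x y = false)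
    (h2 : ∀ x y, M x y = false → ∃ i, x ∈ A i ∧ y ∈ B i) : (matrixGraph M).Colorable k := by
  choose s hs using fun p : {p : R × C // M p.1 p.2 = false} => h2 p.1.1 p.1.2 p.2
  have col : (matrixGraph M).Coloring (Fin k) := SimpleGraph.Coloring.mk s (by
    intro p q hpq heq
    rcases hpq with h | h
    · have := h1 (s p) p.1.1 (hs p).1 q.1.2 (by rw [heq]; exact (hs q).2)
      rw [this] at h
      exact absurd h (by simp)
    · have := h1 (s q) q.1.1 (hs q).1 p.1.2 (by rw [← heq]; exact (hs p).2)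
      rw [this] at h
      exact absurd h (by simp))
  simpa using col.colorable

end graph

theorem compose_colouring {I L : Type*} [Fintype I] [DecidableEq I] [Fintype L]
    [SemilatticeInf L] {X Y : I → Type*} [∀ i, Fintype (X i)] [∀ i, Fintype (Y i)] (m : ℕ)
    (hm : 1 ≤ m) (g : ∀ i, X i → Y i → Bool) (hX : ∀ i, (Set.range (g i)).ncard ≤ m)
    (hY : ∀ i, (Set.range (fun y x => g i x y)).ncard ≤ m)
    (hg : ∀ i, ¬ ∃ (a : X i → Bool) (b : Y i → Bool), ∀ x y, g i x y = xor (a x) (b y))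
    (f : (I → Bool) → L → Bool)
    (h0 : (∃ x, ∀ y, compose g f x y = false) ∨ ∃ y, ∀ x, compose g f x y = false)
    [Fintype {p : ((∀ i, X i) × L) × ((∀ i, Y i) × L) // compose g f p.1 p.2 = false}]
    [DecidableRel (matrixGraph (compose g f)).Adj]
    (hr : 1 < ((matrixGraph (compose g f)).adjMatrix ℝ).rank) :
    (matrixGraph (compose g f)).Colorable
      (2 ^ (9124736 * (Nat.log 2 m + 1) *
        (Nat.log 2 ((matrixGraph (compose g f)).adjMatrix ℝ).rank + 1) ^ 7)) := by
  have hrk := rank_le_of_zero (compose g f) h0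
  set r := ((matrixGraph (compose g f)).adjMatrix ℝ).rank with hrdef
  obtain ⟨k, A, B, h1, h2, h3⟩ := compose_cover m hm g hX hY hg f (r + 1) (by omega) hrk
  refine (colorable_of_cover (compose g f) k A B h1 h2).mono (h3.trans ?_)
  apply Nat.pow_le_pow_right (by norm_num)
  have hlog : Nat.log 2 (r + 1) + 1 ≤ 2 * (Nat.log 2 r + 1) := by
    have h5 : Nat.log 2 (r + 1) ≤ Nat.log 2 (r * 2) := Nat.log_mono_right (by omega)
    rw [Nat.log_mul_base (by norm_num) (by omega)] at h5
    omega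
  calc 71287 * (Nat.log 2 m + 1) * (Nat.log 2 (r + 1) + 1) ^ 7
      ≤ 71287 * (Nat.log 2 m + 1) * (2 * (Nat.log 2 r + 1)) ^ 7 :=
        Nat.mul_le_mul_left _ (Nat.pow_le_pow_left hlog 7)
    _ = 9124736 * (Nat.log 2 m + 1) * (Nat.log 2 r + 1) ^ 7 := by
        rw [mul_pow]
        ring

end Pool.Agent.Helper25.Comp
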