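import Mathlib
import Pool.Agent.Helper25.Comp.Final
set_option autoImplicit false

/-!
# Colouring the graph of a composed function of low rank
-/

namespace Pool.Agent.Helper25.Comp

open Finset

theorem colouring {I L : Type*} [Fintype I] [DecidableEq I] [Fintype L]
    [SemilatticeInf L] {X Y : I → Type*} [∀ i, Fintype (X i)] [∀ i, Fintype (Y i)] (m : ℕ)
    (hm : 1 ≤ m) (g : ∀ i, X i → Y i → Bool) (hX : ∀ i, (Set.range (g i)).ncard ≤ m)
    (hY : ∀ i, (Set.range (fun y x => g i x y)).ncard ≤ m)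
    (hg : ∀ i, ¬ ∃ (a : X i → Bool) (b : Y i → Bool), ∀ x y, g i x y = xor (a x) (b y))
    (f : (I → Bool) → L → Bool)
    (hN : ∀ z a, f z a = false → ∃ w ≤ a,
      (∃ x : ∀ i, X i, ∀ y : ∀ i, Y i, f (fun i => g i (x i) (y i)) w = false) ∨
      ∃ y : ∀ i, Y i, ∀ x : ∀ i, X i, f (fun i => g i (x i) (y i)) w = false)
    [Fintype {p : ((∀ i, X i) × L) × ((∀ i, Y i) × L) // compose g f p.1 p.2 = false}]
    [DecidableRel (matrixGraph (compose g f)).Adj]
    (hr : 1 < ((matrixGraph (compose g f)).adjMatrix ℝ).rank) :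
    (matrixGraph (compose g f)).Colorable
      (2 ^ (9124737 * (Nat.log 2 m + 1) *
        (Nat.log 2 ((matrixGraph (compose g f)).adjMatrix ℝ).rank + 1) ^ 7)) := by
  classical
  set r := ((matrixGraph (compose g f)).adjMatrix ℝ).rank with hrdef
  let Null : L → Prop := fun w =>
    (∃ x : ∀ i, X i, ∀ y : ∀ i, Y i, f (fun i => g i (x i) (y i)) w = false) ∨
      ∃ y : ∀ i, Y i, ∀ x : ∀ i, X i, f (fun i => g i (x i) (y i)) w = false
  set W := {w : L // Minimal Null w} with hW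
  have hXY : ∀ i, Nonempty (X i) ∧ Nonempty (Y i) := by
    intro i
    obtain ⟨x, _, y, _, _⟩ := odd_square (g i) (hg i)
    exact ⟨⟨x⟩, ⟨y⟩⟩
  -- the covers
  have hcov : ∀ w : W, ∃ (k : ℕ) (A : Fin k → Finset ((∀ i, X i) × Set.Ici w.1))
      (B : Fin k → Finset ((∀ i, Y i) × Set.Ici w.1)),
      (∀ i, ∀ x ∈ A i, ∀ y ∈ B i, compose g f (x.1, x.2.1) (y.1, y.2.1) = false) ∧
      (∀ (x : (∀ i, X i) × Set.Ici w.1) (y : (∀ i, Y i) × Set.Ici w.1),
        compose g f (x.1, x.2.1) (y.1, y.2.1) = false → ∃ i, x ∈ A i ∧ y ∈ B i) ∧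
      k ≤ 2 ^ (71287 * (Nat.log 2 m + 1) * (Nat.log 2 (r + 1) + 1) ^ 7) := by
    intro w
    let fw : (I → Bool) → Set.Ici w.1 → Bool := fun z a => f z a.1
    have hfw : ∀ (x : (∀ i, X i) × Set.Ici w.1) (y : (∀ i, Y i) × Set.Ici w.1),
        compose g fw x y = compose g f (x.1, x.2.1) (y.1, y.2.1) := fun x y => rfl
    have h0 : (∃ x, ∀ y, compose g fw x y = false) ∨ ∃ y, ∀ x, compose g fw x y = false := by
      rcases w.2.1 with ⟨x, hx⟩ | ⟨y, hy⟩
      · left
        refine ⟨(x, ⟨w.1, le_refl w.1⟩), fun y => ?_⟩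
        rw [hfw]
        have h : w.1 ⊓ y.2.1 = w.1 := inf_eq_left.2 y.2.2
        simp only [compose, h, hx]
      · right
        refine ⟨(y, ⟨w.1, le_refl w.1⟩), fun x => ?_⟩
        rw [hfw]
        have h : x.2.1 ⊓ w.1 = w.1 := inf_eq_right.2 x.2.2
        simp only [compose, h, hy]
    have h1 := rank_le_of_zero (compose g fw) h0
    have h2 : ((matrixGraph (compose g fw)).adjMatrix ℝ).rank ≤ r := by
      let em : {p : ((∀ i, X i) × Set.Ici w.1) × ((∀ i, Y i) × Set.Ici w.1) //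
          compose g fw p.1 p.2 = false} →
          {p : ((∀ i, X i) × L) × ((∀ i, Y i) × L) // compose g f p.1 p.2 = false} :=
        fun p => ⟨((p.1.1.1, p.1.1.2.1), (p.1.2.1, p.1.2.2.1)), p.2⟩
      have h3 : (matrixGraph (compose g fw)).adjMatrix ℝ =
          ((matrixGraph (compose g f)).adjMatrix ℝ).submatrix em em := by
        ext p q
        rw [Matrix.submatrix_apply, SimpleGraph.adjMatrix_apply, SimpleGraph.adjMatrix_apply]
        have hiff : (matrixGraph (compose g fw)).Adj p q ↔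
          (matrixGraph (compose g f)).Adj (em p) (em q) := Iff.rfl
        by_cases hadj : (matrixGraph (compose g fw)).Adj p q
        · rw [if_pos hadj, if_pos (hiff.1 hadj)]
        · rw [if_neg hadj, if_neg (fun h => hadj (hiff.2 h))]
      rw [h3]
      exact Matrix.rank_submatrix_le _ _ _
    obtain ⟨k, A, B, e1, e2, e3⟩ := compose_cover m hm g hX hY hg fw (r + 1) (by omega)
      (h1.trans (Nat.add_le_add_right h2 1))
    exact ⟨k, A, B, e1, e2, e3⟩
  choose k A B hAB hcover hk using hcov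
  -- the number of minimal null elements
  have hv : ∀ w : W, ∃ (x : ∀ i, X i) (y : ∀ i, Y i), compose g f (x, w.1) (y, w.1) = false := by
    intro w
    rcases w.2.1 with ⟨x, hx⟩ | ⟨y, hy⟩
    · refine ⟨x, fun i => (hXY i).2.some, ?_⟩
      simp only [compose, inf_idem, hx]
    · refine ⟨fun i => (hXY i).1.some, y, ?_⟩
      simp only [compose, inf_idem, hy]
  choose vx vy hvxy using hv
  have hWcard : Fintype.card W ≤ r + 1 := by
    have hid : (1 : Matrix W W ℝ) = (Matrix.of fun _ _ : W => (1 : ℝ) * 1) -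
        ((matrixGraph (compose g f)).adjMatrix ℝ).submatrix
          (fun w : W => ⟨((vx w, w.1), (vy w, w.1)), hvxy w⟩)
          (fun w : W => ⟨((vx w, w.1), (vy w, w.1)), hvxy w⟩) := by
      ext v w
      rw [Matrix.sub_apply, Matrix.of_apply, Matrix.submatrix_apply, SimpleGraph.adjMatrix_apply,
        Matrix.one_apply]
      by_cases hvw : v = w
      · subst hvw
        have : ¬ (matrixGraph (compose g f)).Adj ⟨((vx v, v.1), (vy v, v.1)), hvxy v⟩
            ⟨((vx v, v.1), (vy v, v.1)), hvxy v⟩ := SimpleGraph.irrefl _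
        rw [if_pos rfl, if_neg this]
        norm_num
      · have h5 : ∀ z, f z (v.1 ⊓ w.1) = true := by
          intro z
          by_contra hcon
          rw [Bool.not_eq_true] at hcon
          obtain ⟨u, hu1, hu2⟩ := hN _ _ hcon
          have h6 := v.2.2 hu2 (hu1.trans inf_le_left)
          have h7 := w.2.2 hu2 (hu1.trans inf_le_right)
          apply hvw
          apply Subtype.ext
          exact le_antisymm (h6.trans (hu1.trans inf_le_right)) (h7.trans (hu1.trans inf_le_left))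
        have : (matrixGraph (compose g f)).Adj ⟨((vx v, v.1), (vy v, v.1)), hvxy v⟩
            ⟨((vx w, w.1), (vy w, w.1)), hvxy w⟩ := by
          left
          simp only [compose, h5]
        rw [if_neg hvw, if_pos this]
        norm_num
    have h8 : (1 : Matrix W W ℝ).rank = Fintype.card W := Matrix.rank_one
    rw [← h8, hid]
    refine (Pool.Agent.Helper26.rank_sub_le _ _).trans ?_
    have h9 := Pool.Agent.Helper25.Meet.Cover.rank_const_le (fun _ : W => (1 : ℝ))
      (fun _ : W => (1 : ℝ))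
    have h10 := Matrix.rank_submatrix_le ((matrixGraph (compose g f)).adjMatrix ℝ)
      (fun w : W => ⟨((vx w, w.1), (vy w, w.1)), hvxy w⟩)
      (fun w : W => ⟨((vx w, w.1), (vy w, w.1)), hvxy w⟩)
    omega
  -- the colouring
  have hcol : ∀ p : {p : ((∀ i, X i) × L) × ((∀ i, Y i) × L) // compose g f p.1 p.2 = false},
      ∃ s : (Σ w : W, Fin (k w)), ∃ (h1 : s.1.1 ≤ p.1.1.2) (h2 : s.1.1 ≤ p.1.2.2),
        ((p.1.1.1, (⟨p.1.1.2, h1⟩ : Set.Ici s.1.1)) : (∀ i, X i) × Set.Ici s.1.1) ∈ A s.1 s.2 ∧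
        ((p.1.2.1, (⟨p.1.2.2, h2⟩ : Set.Ici s.1.1)) : (∀ i, Y i) × Set.Ici s.1.1) ∈ B s.1 s.2 := by
    intro p
    obtain ⟨w0, hw0, hw0'⟩ := hN _ _ p.2
    obtain ⟨w, hw1, hw2⟩ := (Set.toFinite {x : L | Null x}).exists_le_minimal (a := w0) hw0'
    have hle1 : w ≤ p.1.1.2 := hw1.trans (hw0.trans inf_le_left)
    have hle2 : w ≤ p.1.2.2 := hw1.trans (hw0.trans inf_le_right)
    obtain ⟨i, hi1, hi2⟩ := hcover ⟨w, hw2⟩ (p.1.1.1, ⟨p.1.1.2, hle1⟩)
      (p.1.2.1, ⟨p.1.2.2, hle2⟩) p.2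
    exact ⟨⟨⟨w, hw2⟩, i⟩, hle1, hle2, hi1, hi2⟩
  choose s hs using hcol
  have hkey : ∀ p q, s p = s q → compose g f p.1.1 q.1.2 = false := by
    intro p q heq
    obtain ⟨h1, _, h3, _⟩ := hs p
    have h4 := hs q
    rw [← heq] at h4
    obtain ⟨_, h6, _, h8⟩ := h4
    exact hAB _ _ _ h3 _ h8
  let col : (matrixGraph (compose g f)).Coloring (Σ w : W, Fin (k w)) :=
    SimpleGraph.Coloring.mk s (by
      intro p q hpq heq
      rcases hpq with h | h
      · rw [hkey p q heq] at h; exact absurd h (by simp)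
      · rw [hkey q p heq.symm] at h; exact absurd h (by simp))
  have hcard : Fintype.card (Σ w : W, Fin (k w)) ≤
      2 ^ (9124737 * (Nat.log 2 m + 1) * (Nat.log 2 r + 1) ^ 7) := by
    rw [Fintype.card_sigma]
    simp only [Fintype.card_fin]
    have hlog : Nat.log 2 (r + 1) + 1 ≤ 2 * (Nat.log 2 r + 1) := by
      have h5 : Nat.log 2 (r + 1) ≤ Nat.log 2 (r * 2) := Nat.log_mono_right (by omega)
      rw [Nat.log_mul_base (by norm_num) (by omega)] at h5
      omega
    have hk' : ∀ w, k w ≤ 2 ^ (9124736 * (Nat.log 2 m + 1) * (Nat.log 2 r + 1) ^ 7) := by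
      intro w
      refine (hk w).trans ?_
      apply Nat.pow_le_pow_right (by norm_num)
      calc 71287 * (Nat.log 2 m + 1) * (Nat.log 2 (r + 1) + 1) ^ 7
          ≤ 71287 * (Nat.log 2 m + 1) * (2 * (Nat.log 2 r + 1)) ^ 7 :=
            Nat.mul_le_mul_left _ (Nat.pow_le_pow_left hlog 7)
        _ = 9124736 * (Nat.log 2 m + 1) * (Nat.log 2 r + 1) ^ 7 := by
            rw [mul_pow]
            ring
    have hrl : r < 2 ^ (Nat.log 2 r + 1) := Nat.lt_pow_succ_log_self (by norm_num) r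
    have hl7 : Nat.log 2 r + 1 ≤ (Nat.log 2 m + 1) * (Nat.log 2 r + 1) ^ 7 := by
      have h1 : Nat.log 2 r + 1 ≤ (Nat.log 2 r + 1) ^ 7 :=
        Nat.le_self_pow (by norm_num) _
      have h2 : 1 * (Nat.log 2 r + 1) ^ 7 ≤ (Nat.log 2 m + 1) * (Nat.log 2 r + 1) ^ 7 :=
        Nat.mul_le_mul_right _ (by omega)
      omega
    calc ∑ w : W, k w
        ≤ ∑ _w : W, 2 ^ (9124736 * (Nat.log 2 m + 1) * (Nat.log 2 r + 1) ^ 7) :=
          sum_le_sum (fun w _ => hk' w)
      _ = Fintype.card W * 2 ^ (9124736 * (Nat.log 2 m + 1) * (Nat.log 2 r + 1) ^ 7) := by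
          rw [sum_const, smul_eq_mul, card_univ]
      _ ≤ 2 ^ (Nat.log 2 r + 1) * 2 ^ (9124736 * (Nat.log 2 m + 1) * (Nat.log 2 r + 1) ^ 7) :=
          Nat.mul_le_mul_right _ (by omega)
      _ = 2 ^ (Nat.log 2 r + 1 + 9124736 * (Nat.log 2 m + 1) * (Nat.log 2 r + 1) ^ 7) := by
          rw [← pow_add]
      _ ≤ 2 ^ (9124737 * (Nat.log 2 m + 1) * (Nat.log 2 r + 1) ^ 7) := by
          apply Nat.pow_le_pow_right (by norm_num)
          have h3 : 9124736 * (Nat.log 2 m + 1) * (Nat.log 2 r + 1) ^ 7 =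
            9124736 * ((Nat.log 2 m + 1) * (Nat.log 2 r + 1) ^ 7) := by ring
          have h4 : 9124737 * (Nat.log 2 m + 1) * (Nat.log 2 r + 1) ^ 7 =
            9124737 * ((Nat.log 2 m + 1) * (Nat.log 2 r + 1) ^ 7) := by ring
          rw [h3, h4]
          omega
  exact col.colorable.mono hcard

end Pool.Agent.Helper25.Comp
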